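import Mathlib

set_option autoImplicit false

/-!
Univariate facts used in the Marcus-Spielman-Srivastava argument.
-/

namespace Pool.Agent.Work.Shared.MSS

open Polynomial Filter Topology

lemma im_one_div_nonpos {t ρ : ℂ} (ht : 0 < t.im) (hρ : ρ.im ≤ 0) : (1 / (t - ρ)).im < 0 := by
  have h1 : 0 < (t - ρ).im := by simp; linarith
  have h2 : t - ρ ≠ 0 := by
    intro h; rw [h] at h1; simp at h1
  rw [one_div, Complex.inv_im]
  have h3 : 0 < Complex.normSq (t - ρ) := Complex.normSq_pos.mpr h2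
  exact div_neg_of_neg_of_pos (by linarith) h3

lemma im_multiset_sum (s : Multiset ℂ) : s.sum.im = (s.map Complex.im).sum := by
  induction s using Multiset.induction with
  | empty => simp
  | cons a s ih => simp [ih]

/-- If `q` has no zeros in the open upper half plane then `Im (q'/q) ≤ 0` there, and `q'/q ≠ 1`. -/
lemma logDeriv_aux (q : ℂ[X]) (hq : ∀ t : ℂ, 0 < t.im → q.eval t ≠ 0) (t : ℂ) (ht : 0 < t.im) :
    (q.derivative.eval t / q.eval t).im ≤ 0 ∧ q.derivative.eval t / q.eval t ≠ 1 := by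
  have hne := hq t ht
  have hs : q.Splits := IsAlgClosed.splits q
  rw [hs.eval_derivative_div_eval_of_ne_zero hne]
  have hroots : ∀ ρ ∈ q.roots, ρ.im ≤ 0 := by
    intro ρ hρ
    by_contra h
    push Not at h
    exact hq ρ h (Polynomial.isRoot_of_mem_roots hρ)
  have key : ∀ s : Multiset ℂ, (∀ ρ ∈ s, ρ.im ≤ 0) →
      ((s.map fun z => 1 / (t - z)).sum.im ≤ 0 ∧ (s ≠ 0 → (s.map fun z => 1 / (t - z)).sum.im < 0)) := by
    intro s
    induction s using Multiset.induction with
    | empty => simp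
    | cons a s ih =>
      intro h
      have h1 := ih (fun ρ hρ => h ρ (Multiset.mem_cons_of_mem hρ))
      have h2 := im_one_div_nonpos ht (h a (Multiset.mem_cons_self a s))
      rw [Multiset.map_cons, Multiset.sum_cons, Complex.add_im]
      exact ⟨by linarith [h1.1], fun _ => by linarith [h1.1]⟩
  have hk := key q.roots hroots
  refine ⟨hk.1, ?_⟩
  by_cases h0 : q.roots = 0
  · rw [h0]; simp
  · intro h1
    have := hk.2 h0
    rw [h1] at this
    simp at this

lemma im_mul_conj_nonpos_of_div {a b : ℂ} (h : (a / b).im ≤ 0) : (a * (starRingEnd ℂ) b).im ≤ 0 := by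
  by_cases hb : b = 0
  · simp [hb]
  have h1 : a * (starRingEnd ℂ) b = (a / b) * (Complex.normSq b : ℂ) := by
    rw [Complex.normSq_eq_conj_mul_self]
    field_simp
  rw [h1, Complex.im_mul_ofReal]
  exact mul_nonpos_of_nonpos_of_nonneg h (Complex.normSq_nonneg b)

lemma im_deriv_mul_conj (q : ℂ[X]) (hq : ∀ t : ℂ, 0 < t.im → q.eval t ≠ 0) (t : ℂ) (ht : 0 < t.im) :
    (q.derivative.eval t * (starRingEnd ℂ) (q.eval t)).im ≤ 0 :=
  im_mul_conj_nonpos_of_div (logDeriv_aux q hq t ht).1

lemma sub_deriv_ne_zero (q : ℂ[X]) (hq : ∀ t : ℂ, 0 < t.im → q.eval t ≠ 0) (t : ℂ) (ht : 0 < t.im) :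
    q.eval t - q.derivative.eval t ≠ 0 := by
  have h1 := (logDeriv_aux q hq t ht).2
  have hne := hq t ht
  intro h
  apply h1
  rw [sub_eq_zero] at h
  rw [← h, div_self hne]

/-- The closed Pick condition for a pair of real polynomials. -/
def PickPair (N Q : ℝ[X]) : Prop :=
  ∀ t : ℂ, 0 < t.im → ((aeval t N) * (starRingEnd ℂ) (aeval t Q)).im ≤ 0

lemma aeval_ofReal (N : ℝ[X]) (x : ℝ) : aeval (x : ℂ) N = ((N.eval x : ℝ) : ℂ) := by
  rw [← Complex.coe_algebraMap, aeval_algebraMap_apply, Complex.coe_algebraMap]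
  rfl

lemma hasDerivAt_vertical (N : ℝ[X]) (x : ℝ) :
    HasDerivAt (fun ε : ℝ => aeval ((x : ℂ) + ε * Complex.I) N)
      (Complex.I * (N.derivative.eval x : ℝ)) 0 := by
  have h1 : HasDerivAt (fun z : ℂ => aeval z N) (aeval ((x : ℂ) + ((0 : ℝ) : ℂ) * Complex.I) N.derivative)
      ((x : ℂ) + ((0 : ℝ) : ℂ) * Complex.I) := by
    exact N.hasDerivAt_aeval _
  have h2 : HasDerivAt (fun ε : ℝ => (x : ℂ) + ε * Complex.I) Complex.I 0 := by
    have h3 : HasDerivAt (fun ε : ℝ => ((ε : ℝ) : ℂ)) 1 0 := Complex.ofRealCLM.hasDerivAt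
    have h4 := (h3.mul_const Complex.I).const_add (x : ℂ)
    simpa using h4
  have h5 := h1.scomp (0 : ℝ) h2
  have h6 : aeval ((x : ℂ) + ((0 : ℝ) : ℂ) * Complex.I) N.derivative = ((N.derivative.eval x : ℝ) : ℂ) := by
    rw [Complex.ofReal_zero, zero_mul, add_zero, aeval_ofReal]
  rw [h6, smul_eq_mul] at h5
  exact h5

/-- Wronskian inequality. -/
lemma wronskian_nonpos {N Q : ℝ[X]} (h : PickPair N Q) (x : ℝ) :
    N.derivative.eval x * Q.eval x - N.eval x * Q.derivative.eval x ≤ 0 := by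
  have hN := hasDerivAt_vertical N x
  have hQ := hasDerivAt_vertical Q x
  have hQ' : HasDerivAt (fun ε : ℝ => (starRingEnd ℂ) (aeval ((x : ℂ) + ε * Complex.I) Q))
      ((starRingEnd ℂ) (Complex.I * (Q.derivative.eval x : ℝ))) 0 := by
    have := Complex.conjCLE.toContinuousLinearMap.hasFDerivAt.comp_hasDerivAt (0 : ℝ) hQ
    exact this
  have hm := hN.mul hQ'
  have him := Complex.imCLM.hasFDerivAt.comp_hasDerivAt (0 : ℝ) hm
  simp only [Complex.ofReal_zero, zero_mul, add_zero, aeval_ofReal] at him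
  have hd : HasDerivAt (fun ε : ℝ => ((aeval ((x : ℂ) + ε * Complex.I) N) *
      (starRingEnd ℂ) (aeval ((x : ℂ) + ε * Complex.I) Q)).im)
      (N.derivative.eval x * Q.eval x - N.eval x * Q.derivative.eval x) 0 := by
    refine HasDerivAt.congr_deriv (f' := _) him ?_
    simp [Complex.mul_re, Complex.mul_im]
    ring
  have hz : ((aeval ((x : ℂ) + ((0 : ℝ) : ℂ) * Complex.I) N) *
      (starRingEnd ℂ) (aeval ((x : ℂ) + ((0 : ℝ) : ℂ) * Complex.I) Q)).im = 0 := by
    simp only [Complex.ofReal_zero, zero_mul, add_zero, aeval_ofReal]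
    simp
  -- right derivative of a function that is `≤ 0 = value at 0` for positive arguments
  have hslope := hd.tendsto_slope_zero_right
  refine le_of_tendsto hslope ?_
  filter_upwards [self_mem_nhdsWithin] with ε hε
  have hε' : (0 : ℝ) < ε := hε
  simp only [zero_add]
  rw [hz, sub_zero, smul_eq_mul]
  apply mul_nonpos_of_nonneg_of_nonpos (by positivity)
  apply h
  simp [hε']

/-- `N/Q` is antitone where `Q > 0`. -/
lemma antitone_of_pick {N Q : ℝ[X]} (h : PickPair N Q) (a : ℝ) (hQ : ∀ x, a ≤ x → 0 < Q.eval x) :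
    AntitoneOn (fun x => N.eval x / Q.eval x) (Set.Ici a) := by
  apply antitoneOn_of_deriv_nonpos (convex_Ici a)
  · apply ContinuousOn.div N.continuous.continuousOn Q.continuous.continuousOn
    intro x hx
    exact (hQ x hx).ne'
  · intro x hx
    rw [interior_Ici] at hx
    have hx' : a < x := hx
    apply DifferentiableAt.differentiableWithinAt
    exact N.differentiableAt.div Q.differentiableAt (hQ x hx'.le).ne'
  · intro x hx
    rw [interior_Ici] at hx
    have hx' : a < x := hx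
    have h1 : HasDerivAt (fun x => N.eval x / Q.eval x)
        ((N.derivative.eval x * Q.eval x - N.eval x * Q.derivative.eval x) / (Q.eval x) ^ 2) x :=
      (N.hasDerivAt x).div (Q.hasDerivAt x) (hQ x hx'.le).ne'
    rw [h1.deriv]
    exact div_nonpos_of_nonpos_of_nonneg (wronskian_nonpos h x) (by positivity)

end Pool.Agent.Work.Shared.MSS
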