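import Mathlib
import Pool.Agent.Work.Shared.MSS.Univ

set_option autoImplicit false

/-!
Partial fractions of Pick pairs and the convexity inequality.
-/

namespace Pool.Agent.Work.Shared.MSS

open Polynomial Filter Topology

/-- Local analysis at a zero: if `U` is continuous at `t0` and
`Im (U (t0 + ρ u) * conj (ρ u) ^ m) ≤ 0` for small `ρ > 0`, then `Im (U t0 * conj u ^ m) ≤ 0`. -/
lemma local_limit {U : ℂ → ℂ} {t0 : ℂ} (hU : ContinuousAt U t0) (m : ℕ) (u : ℂ)
    (h : ∀ᶠ ρ : ℝ in 𝓝[>] 0,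
      (U (t0 + ρ * u) * ((starRingEnd ℂ) (ρ * u)) ^ m).im ≤ 0) :
    (U t0 * ((starRingEnd ℂ) u) ^ m).im ≤ 0 := by
  have h1 : Tendsto (fun ρ : ℝ => t0 + (ρ : ℂ) * u) (𝓝[>] 0) (𝓝 t0) := by
    have : Tendsto (fun ρ : ℝ => t0 + (ρ : ℂ) * u) (𝓝 0) (𝓝 (t0 + ((0 : ℝ) : ℂ) * u)) := by
      apply Continuous.tendsto
      fun_prop
    rw [Complex.ofReal_zero, zero_mul, add_zero] at this
    exact this.mono_left nhdsWithin_le_nhds
  have h2 : Tendsto (fun ρ : ℝ => (U (t0 + (ρ : ℂ) * u) * ((starRingEnd ℂ) u) ^ m).im) (𝓝[>] 0)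
      (𝓝 (U t0 * ((starRingEnd ℂ) u) ^ m).im) := by
    have h3 : Tendsto (fun ρ : ℝ => U (t0 + (ρ : ℂ) * u)) (𝓝[>] 0) (𝓝 (U t0)) :=
      hU.tendsto.comp h1
    exact (Complex.continuous_im.tendsto _).comp (h3.mul_const _)
  refine le_of_tendsto h2 ?_
  filter_upwards [h, self_mem_nhdsWithin] with ρ hρ hpos
  have hpos' : (0 : ℝ) < ρ := hpos
  have e : U (t0 + ρ * u) * ((starRingEnd ℂ) (ρ * u)) ^ m =
      (U (t0 + ρ * u) * ((starRingEnd ℂ) u) ^ m) * ((ρ ^ m : ℝ) : ℂ) := by
    rw [map_mul, Complex.conj_ofReal, mul_pow]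
    push_cast
    ring
  rw [e, Complex.im_mul_ofReal] at hρ
  by_contra hc
  push Not at hc
  have : 0 < (U (t0 + ρ * u) * ((starRingEnd ℂ) u) ^ m).im * ρ ^ m := by positivity
  linarith

lemma aeval_eq_eval_map (N : ℝ[X]) (t : ℂ) : aeval t N = (N.map (algebraMap ℝ ℂ)).eval t := by
  rw [eval_map_algebraMap]

/-- No root of `Q` in the open upper half plane, if `N, Q` are coprime. -/
lemma no_root_upper {N Q : ℝ[X]} (h : PickPair N Q) (hQ : Q ≠ 0) (hc : IsCoprime N Q)
    (t0 : ℂ) (ht0 : 0 < t0.im) : aeval t0 Q ≠ 0 := by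
  intro hroot
  have hN : aeval t0 N ≠ 0 := by
    intro hN
    obtain ⟨a, b, hab⟩ := hc
    have := congrArg (aeval t0) hab
    rw [map_add, map_mul, map_mul, hN, hroot] at this
    simp at this
  set Qc := Q.map (algebraMap ℝ ℂ) with hQc
  have hQc0 : Qc ≠ 0 := (Polynomial.map_ne_zero_iff (algebraMap ℝ ℂ).injective).mpr hQ
  obtain ⟨R, hR, hndvd⟩ := Qc.exists_eq_pow_rootMultiplicity_mul_and_not_dvd hQc0 t0
  set m := Qc.rootMultiplicity t0 with hm
  have hR0 : R.eval t0 ≠ 0 := by
    intro h0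
    exact hndvd (dvd_iff_isRoot.mpr h0)
  have hm0 : 0 < m := by
    rw [hm, rootMultiplicity_pos hQc0, IsRoot.def, hQc, ← aeval_eq_eval_map]
    exact hroot
  set W : ℂ := aeval t0 N * (starRingEnd ℂ) (R.eval t0) with hW
  have hW0 : W ≠ 0 := mul_ne_zero hN ((_root_.map_ne_zero _).mpr hR0)
  obtain ⟨v, hv⟩ := IsAlgClosed.exists_pow_nat_eq (Complex.I * (starRingEnd ℂ) W) hm0
  have key := local_limit (U := fun t => aeval t N * (starRingEnd ℂ) (R.eval t)) (t0 := t0)
    (by
      apply Continuous.continuousAt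
      exact N.continuous_aeval.mul (Complex.continuous_conj.comp R.continuous)) m ((starRingEnd ℂ) v)
    (by
      have hev : ∀ᶠ ρ : ℝ in 𝓝[>] 0, 0 < (t0 + (ρ : ℂ) * (starRingEnd ℂ) v).im := by
        have : Tendsto (fun ρ : ℝ => (t0 + (ρ : ℂ) * (starRingEnd ℂ) v).im) (𝓝 0)
            (𝓝 (t0 + ((0 : ℝ) : ℂ) * (starRingEnd ℂ) v).im) := by
          apply Continuous.tendsto
          fun_prop
        rw [Complex.ofReal_zero, zero_mul, add_zero] at this
        exact (this.eventually (lt_mem_nhds ht0)).filter_mono nhdsWithin_le_nhds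
      filter_upwards [hev] with ρ hρ
      have h1 := h _ hρ
      have h2 : aeval (t0 + (ρ : ℂ) * (starRingEnd ℂ) v) Q =
          ((ρ : ℂ) * (starRingEnd ℂ) v) ^ m * R.eval (t0 + (ρ : ℂ) * (starRingEnd ℂ) v) := by
        rw [aeval_eq_eval_map, ← hQc, hR]
        simp
      rw [h2, map_mul, map_pow] at h1
      calc _ = _ := by
            congr 1
            ring
        _ ≤ 0 := h1)
  simp only [Complex.conj_conj] at key
  rw [← hW, hv] at key
  have e : W * (Complex.I * (starRingEnd ℂ) W) = Complex.I * (Complex.normSq W : ℂ) := by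
    rw [← Complex.mul_conj]; ring
  rw [e] at key
  have : (Complex.I * (Complex.normSq W : ℂ)).im = Complex.normSq W := by simp
  rw [this] at key
  have := Complex.normSq_pos.mpr hW0
  linarith

/-- Real roots of `Q` are simple with positive residue. -/
lemma real_root {N Q : ℝ[X]} (h : PickPair N Q) (hQ : Q ≠ 0) (hc : IsCoprime N Q)
    (x : ℝ) (hx : Q.eval x = 0) : Q.derivative.eval x ≠ 0 ∧ 0 < N.eval x / Q.derivative.eval x := by
  have hN : N.eval x ≠ 0 := by
    intro hN
    obtain ⟨a, b, hab⟩ := hc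
    have := congrArg (eval x) hab
    rw [eval_add, eval_mul, eval_mul, hN, hx] at this
    simp at this
  obtain ⟨R, hR, hndvd⟩ := Q.exists_eq_pow_rootMultiplicity_mul_and_not_dvd hQ x
  set m := Q.rootMultiplicity x with hm
  have hR0 : R.eval x ≠ 0 := by
    intro h0
    exact hndvd (dvd_iff_isRoot.mpr h0)
  have hm0 : 0 < m := by
    rw [hm, rootMultiplicity_pos hQ]
    exact hx
  set W : ℝ := N.eval x * R.eval x with hW
  have hW0 : W ≠ 0 := mul_ne_zero hN hR0
  have key : ∀ u : ℂ, 0 < u.im → ((W : ℂ) * ((starRingEnd ℂ) u) ^ m).im ≤ 0 := by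
    intro u hu
    have := local_limit (U := fun t => aeval t N * (starRingEnd ℂ) (aeval t R)) (t0 := (x : ℂ))
      (by
        apply Continuous.continuousAt
        exact N.continuous_aeval.mul (Complex.continuous_conj.comp R.continuous_aeval)) m u
      (by
        filter_upwards [self_mem_nhdsWithin] with ρ hρ
        have hρ' : (0 : ℝ) < ρ := hρ
        have h1 := h ((x : ℂ) + ρ * u) (by simp; positivity)
        have h2 : aeval ((x : ℂ) + (ρ : ℂ) * u) Q =
            ((ρ : ℂ) * u) ^ m * aeval ((x : ℂ) + (ρ : ℂ) * u) R := by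
          conv_lhs => rw [hR]
          simp
        rw [h2, map_mul, map_pow] at h1
        calc _ = _ := by
              congr 1
              ring
          _ ≤ 0 := h1)
    simp only [aeval_ofReal, Complex.conj_ofReal] at this
    rw [← Complex.ofReal_mul, ← hW] at this
    exact this
  have key2 : ∀ θ : ℝ, 0 < θ → θ < Real.pi → 0 ≤ W * Real.sin (m * θ) := by
    intro θ h0 hpi
    have h1 := key (Complex.exp (θ * Complex.I)) (by
      rw [Complex.exp_ofReal_mul_I_im]; exact Real.sin_pos_of_pos_of_lt_pi h0 hpi)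
    rw [← Complex.exp_conj, ← Complex.exp_nat_mul] at h1
    have e : (m : ℂ) * (starRingEnd ℂ) (θ * Complex.I) = ((-(m * θ) : ℝ) : ℂ) * Complex.I := by
      simp
      ring
    rw [e, Complex.im_ofReal_mul, Complex.exp_ofReal_mul_I_im, Real.sin_neg] at h1
    linarith
  have hpi := Real.pi_pos
  have hmR : (1 : ℝ) ≤ m := by exact_mod_cast hm0
  have hWpos : 0 < W := by
    have h1 := key2 (Real.pi / (2 * m)) (by positivity) (by
      rw [div_lt_iff₀ (by positivity)]; nlinarith)
    have e : (m : ℝ) * (Real.pi / (2 * m)) = Real.pi / 2 := by field_simp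
    rw [e, Real.sin_pi_div_two, mul_one] at h1
    exact lt_of_le_of_ne h1 (Ne.symm hW0)
  have hm1 : m = 1 := by
    by_contra hne
    have hm2 : 2 ≤ m := by omega
    have hm2R : (2 : ℝ) ≤ m := by exact_mod_cast hm2
    have h1 := key2 (3 * Real.pi / (2 * m)) (by positivity) (by
      rw [div_lt_iff₀ (by positivity)]; nlinarith)
    have e : (m : ℝ) * (3 * Real.pi / (2 * m)) = Real.pi / 2 + Real.pi := by field_simp; ring
    rw [e, Real.sin_add_pi, Real.sin_pi_div_two] at h1
    linarith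
  have hder : Q.derivative.eval x = R.eval x := by
    rw [hR, hm1]
    simp
  rw [hder]
  refine ⟨hR0, ?_⟩
  have : N.eval x / R.eval x = W / (R.eval x) ^ 2 := by
    rw [hW]; field_simp
  rw [this]
  positivity

lemma aeval_conj (Q : ℝ[X]) (t : ℂ) :
    aeval ((starRingEnd ℂ) t) Q = (starRingEnd ℂ) (aeval t Q) := by
  rw [Polynomial.aeval_conj]

/-- Reduce a Pick pair to a coprime one. -/
lemma PickPair.of_mul {N Q g : ℝ[X]} (hg : g ≠ 0) (h : PickPair (g * N) (g * Q)) : PickPair N Q := by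
  intro t ht
  set gc := g.map (algebraMap ℝ ℂ) with hgc
  have hgc0 : gc ≠ 0 := (Polynomial.map_ne_zero_iff (algebraMap ℝ ℂ).injective).mpr hg
  have hev : ∀ᶠ z in 𝓝[≠] t, gc.eval z ≠ 0 := by
    have hfin : (gc.roots.toFinset : Set ℂ).Finite := Finset.finite_toSet _
    have h1 : ((gc.roots.toFinset : Set ℂ) \ {t})ᶜ ∈ 𝓝 t := by
      apply (hfin.subset Set.sdiff_subset).isClosed.compl_mem_nhds
      simp
    have h2 : ((gc.roots.toFinset : Set ℂ) \ {t})ᶜ ∈ 𝓝[≠] t := mem_nhdsWithin_of_mem_nhds h1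
    filter_upwards [h2, self_mem_nhdsWithin] with z hz hzt h0
    apply hz
    refine ⟨?_, hzt⟩
    rw [Finset.mem_coe, Multiset.mem_toFinset, mem_roots hgc0]
    exact h0
  have hline : Tendsto (fun ε : ℝ => t + (ε : ℂ) * Complex.I) (𝓝[>] 0) (𝓝[≠] t) := by
    rw [tendsto_nhdsWithin_iff]
    constructor
    · have : Tendsto (fun ε : ℝ => t + (ε : ℂ) * Complex.I) (𝓝 0)
          (𝓝 (t + ((0 : ℝ) : ℂ) * Complex.I)) := by
        apply Continuous.tendsto
        fun_prop
      rw [Complex.ofReal_zero, zero_mul, add_zero] at this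
      exact this.mono_left nhdsWithin_le_nhds
    · filter_upwards [self_mem_nhdsWithin] with ε hε
      have hε' : (0 : ℝ) < ε := hε
      intro h0
      have h1 : (ε : ℂ) * Complex.I = 0 := by
        have : t + (ε : ℂ) * Complex.I = t := h0
        linear_combination this
      rcases mul_eq_zero.mp h1 with h2 | h2
      · rw [Complex.ofReal_eq_zero] at h2; linarith
      · exact Complex.I_ne_zero h2
  have hlim : Tendsto (fun ε : ℝ => ((aeval (t + (ε : ℂ) * Complex.I) N) *
      (starRingEnd ℂ) (aeval (t + (ε : ℂ) * Complex.I) Q)).im) (𝓝[>] 0)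
      (𝓝 ((aeval t N) * (starRingEnd ℂ) (aeval t Q)).im) := by
    have hcont : Continuous (fun z : ℂ => ((aeval z N) * (starRingEnd ℂ) (aeval z Q)).im) :=
      Complex.continuous_im.comp
        (N.continuous_aeval.mul (Complex.continuous_conj.comp Q.continuous_aeval))
    exact (hcont.tendsto t).comp (hline.mono_right nhdsWithin_le_nhds)
  refine le_of_tendsto hlim ?_
  filter_upwards [hline.eventually hev, self_mem_nhdsWithin] with ε hε1 hε
  have hε' : (0 : ℝ) < ε := hε
  have h1 := h (t + (ε : ℂ) * Complex.I) (by simp; linarith)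
  rw [map_mul, map_mul, map_mul] at h1
  have h2 : gc.eval (t + (ε : ℂ) * Complex.I) = aeval (t + (ε : ℂ) * Complex.I) g := by
    rw [aeval_eq_eval_map]
  rw [h2] at hε1
  set G := aeval (t + (ε : ℂ) * Complex.I) g with hG
  set A := aeval (t + (ε : ℂ) * Complex.I) N with hA
  set D := aeval (t + (ε : ℂ) * Complex.I) Q with hD
  have e : G * A * ((starRingEnd ℂ) G * (starRingEnd ℂ) D) =
      (A * (starRingEnd ℂ) D) * ((Complex.normSq G : ℝ) : ℂ) := by
    rw [← Complex.mul_conj]; ring
  rw [e, Complex.im_mul_ofReal] at h1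
  have hpos := Complex.normSq_pos.mpr hε1
  by_contra hc
  push Not at hc
  have : 0 < (A * (starRingEnd ℂ) D).im * Complex.normSq G := by positivity
  linarith

/-- Partial fractions for a coprime Pick pair. -/
lemma partial_fractions {N Q : ℝ[X]} (h : PickPair N Q) (hc : IsCoprime N Q)
    (hpos : ∀ x, 0 ≤ x → Q.eval x ≠ 0) :
    ∃ (S : ℝ[X]) (s : Finset ℝ) (k : ℝ → ℝ), (∀ x ∈ s, x < 0 ∧ 0 ≤ k x) ∧
      ∀ t, 0 ≤ t → N.eval t / Q.eval t = S.eval t + ∑ x ∈ s, k x / (t - x) := by
  have hQ : Q ≠ 0 := by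
    rintro rfl
    exact hpos 0 le_rfl (by simp)
  -- all roots are real
  have hsplit : Q.Splits := by
    apply Polynomial.Splits.of_splits_map (algebraMap ℝ ℂ) (IsAlgClosed.splits _)
    intro z hz
    have hz' : aeval z Q = 0 := by
      rw [aeval_eq_eval_map]
      exact isRoot_of_mem_roots hz
    have him : z.im = 0 := by
      rcases lt_trichotomy z.im 0 with h1 | h1 | h1
      · exfalso
        have h2 : aeval ((starRingEnd ℂ) z) Q = 0 := by
          rw [aeval_conj, hz', map_zero]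
        exact no_root_upper h hQ hc ((starRingEnd ℂ) z) (by simp; linarith) h2
      · exact h1
      · exact absurd hz' (no_root_upper h hQ hc z h1)
    exact ⟨z.re, by apply Complex.ext <;> simp [him]⟩
  set s := Q.roots.toFinset with hs
  have hmem : ∀ x, x ∈ s ↔ Q.eval x = 0 := by
    intro x
    rw [hs, Multiset.mem_toFinset, mem_roots hQ, IsRoot.def]
  have hnodup : Q.roots.Nodup := by
    rw [Multiset.nodup_iff_count_le_one]
    intro x
    rw [count_roots]
    by_contra hcc
    push Not at hcc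
    have h0 : Q.eval x = 0 := by
      have : 0 < Q.rootMultiplicity x := by omega
      exact (rootMultiplicity_pos hQ).mp this
    have := (real_root h hQ hc x h0).1
    apply this
    have h2 := (one_lt_rootMultiplicity_iff_isRoot hQ).mp hcc
    exact h2.2
  have hcard : Q.natDegree = s.card := by
    rw [hs, Multiset.toFinset_card_of_nodup hnodup]
    exact hsplit.natDegree_eq_card_roots
  have hprod : Q = C Q.leadingCoeff * Lagrange.nodal s id := by
    have h1 := hsplit.eq_prod_roots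
    conv_lhs => rw [h1]
    congr 1
    rw [Lagrange.nodal, Finset.prod]
    congr 1
    rw [hs, Multiset.toFinset_val, hnodup.dedup]
    rfl
  have hlc : Q.leadingCoeff ≠ 0 := leadingCoeff_ne_zero.mpr hQ
  refine ⟨N / Q, s, fun x => N.eval x / Q.derivative.eval x, ?_, ?_⟩
  · intro x hx
    have h0 := (hmem x).mp hx
    refine ⟨?_, (real_root h hQ hc x h0).2.le⟩
    by_contra hx0
    push Not at hx0
    exact hpos x hx0 h0
  · intro t ht
    have hmod : N % Q = Lagrange.interpolate s id (fun x => (N % Q).eval x) := by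
      apply Lagrange.eq_interpolate (Set.injOn_id _)
      calc (N % Q).degree < Q.degree := EuclideanDomain.mod_lt N hQ
        _ = (s.card : WithBot ℕ) := by rw [degree_eq_natDegree hQ, hcard]
    have hdm := EuclideanDomain.div_add_mod N Q
    have ht' : ∀ x ∈ s, t ≠ id x := by
      intro x hx htx
      have h0 := (hmem x).mp hx
      rw [id] at htx
      rw [← htx] at h0
      exact hpos t ht h0
    have hev : (N % Q).eval t = eval t (Lagrange.nodal s id) *
        ∑ x ∈ s, Lagrange.nodalWeight s id x * (t - id x)⁻¹ * (N % Q).eval x := by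
      conv_lhs => rw [hmod]
      exact Lagrange.eval_interpolate_not_at_node _ ht'
    have hQt : Q.eval t ≠ 0 := hpos t ht
    have hQt' : Q.eval t = Q.leadingCoeff * eval t (Lagrange.nodal s id) := by
      conv_lhs => rw [hprod]
      simp
    have hnod : eval t (Lagrange.nodal s id) ≠ 0 := by
      intro h0
      rw [hQt', h0, mul_zero] at hQt
      exact hQt rfl
    have hN : N.eval t = Q.eval t * (N / Q).eval t + (N % Q).eval t := by
      conv_lhs => rw [← hdm]
      simp
    rw [hN, add_div, mul_div_cancel_left₀ _ hQt, hev, hQt']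
    congr 1
    rw [mul_comm (Q.leadingCoeff), mul_div_mul_left _ _ hnod, Finset.sum_div]
    apply Finset.sum_congr rfl
    intro x hx
    have h0 := (hmem x).mp hx
    have hNx : (N % Q).eval x = N.eval x := by
      conv_rhs => rw [← hdm]
      simp [h0]
    have hder : Q.derivative.eval x = Q.leadingCoeff * eval x (Lagrange.nodal s id).derivative := by
      conv_lhs => rw [hprod]
      simp
    have hdne := (real_root h hQ hc x h0).1
    have hnd : eval x (Lagrange.nodal s id).derivative ≠ 0 := by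
      intro h1
      rw [hder, h1, mul_zero] at hdne
      exact hdne rfl
    simp only [id]
    rw [hNx, Lagrange.nodalWeight_eq_eval_derivative_nodal hx, hder]
    simp only [id]
    have htx : t - x ≠ 0 := sub_ne_zero.mpr (ht' x hx)
    field_simp

/-- The convexity inequality. -/
lemma pick_convex {N Q : ℝ[X]} (h : PickPair N Q) (hpos : ∀ x, 0 ≤ x → 0 < Q.eval x)
    (hN : ∀ x, 0 ≤ x → 0 ≤ N.eval x) (δ : ℝ) (hδ : 0 < δ) :
    N.eval δ / Q.eval δ - δ * ((N.derivative.eval δ * Q.eval δ - N.eval δ * Q.derivative.eval δ) /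
      (Q.eval δ) ^ 2) ≤ N.eval 0 / Q.eval 0 := by
  have hQ0 : Q ≠ 0 := by
    rintro rfl
    have := hpos 0 le_rfl
    simp at this
  -- reduce to coprime polynomials
  obtain ⟨S, s, k, hk, hform⟩ : ∃ (S : ℝ[X]) (s : Finset ℝ) (k : ℝ → ℝ),
      (∀ x ∈ s, x < 0 ∧ 0 ≤ k x) ∧
      ∀ t, 0 ≤ t → N.eval t / Q.eval t = S.eval t + ∑ x ∈ s, k x / (t - x) := by
    set g := GCDMonoid.gcd N Q with hg
    have hg0 : g ≠ 0 := by
      intro h0
      rw [hg, gcd_eq_zero_iff] at h0
      exact hQ0 h0.2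
    obtain ⟨N1, hN1⟩ : g ∣ N := GCDMonoid.gcd_dvd_left N Q
    obtain ⟨Q1, hQ1⟩ : g ∣ Q := GCDMonoid.gcd_dvd_right N Q
    have hcop : IsCoprime N1 Q1 := by
      have := isCoprime_div_gcd_div_gcd (p := N) (q := Q) hQ0
      rw [← hg] at this
      have e1 : N / g = N1 := by
        conv_lhs => rw [hN1]
        exact mul_div_cancel_left₀ _ hg0
      have e2 : Q / g = Q1 := by
        conv_lhs => rw [hQ1]
        exact mul_div_cancel_left₀ _ hg0
      rwa [e1, e2] at this
    have hp : PickPair N1 Q1 := by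
      apply PickPair.of_mul hg0
      rw [← hN1, ← hQ1]
      exact h
    have hne : ∀ x, 0 ≤ x → Q1.eval x ≠ 0 ∧ g.eval x ≠ 0 := by
      intro x hx
      have := (hpos x hx).ne'
      rw [hQ1, eval_mul] at this
      exact ⟨right_ne_zero_of_mul this, left_ne_zero_of_mul this⟩
    obtain ⟨S, s, k, hk, hform⟩ := partial_fractions hp hcop (fun x hx => (hne x hx).1)
    refine ⟨S, s, k, hk, fun t ht => ?_⟩
    rw [← hform t ht]
    conv_lhs => rw [hN1, hQ1]
    rw [eval_mul, eval_mul, mul_div_mul_left _ _ (hne t ht).2]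
  -- `S` is constant
  have hanti := antitone_of_pick h 0 hpos
  have hsum : ∀ t, 0 ≤ t → 0 ≤ ∑ x ∈ s, k x / (t - x) ∧
      ∑ x ∈ s, k x / (t - x) ≤ ∑ x ∈ s, k x / (0 - x) := by
    intro t ht
    constructor
    · apply Finset.sum_nonneg
      intro x hx
      have := hk x hx
      apply div_nonneg this.2
      linarith [this.1]
    · apply Finset.sum_le_sum
      intro x hx
      have h1 := hk x hx
      apply div_le_div_of_nonneg_left h1.2 (by linarith [h1.1]) (by linarith)
  have hS : S.natDegree = 0 := by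
    by_contra hdeg
    have hdeg' : 0 < S.degree := natDegree_pos_iff_degree_pos.mp (Nat.pos_of_ne_zero hdeg)
    have htend := S.abs_tendsto_atTop hdeg'
    have hbd : ∀ t, 0 ≤ t → |S.eval t| ≤ N.eval 0 / Q.eval 0 + ∑ x ∈ s, k x / (0 - x) := by
      intro t ht
      have h1 := hform t ht
      have h2 := hsum t ht
      have h3 : N.eval t / Q.eval t ≤ N.eval 0 / Q.eval 0 :=
        hanti (Set.mem_Ici.mpr le_rfl) (Set.mem_Ici.mpr ht) ht
      have h4 : 0 ≤ N.eval t / Q.eval t := div_nonneg (hN t ht) (hpos t ht).le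
      have h5 := hsum 0 le_rfl
      have h6 : 0 ≤ N.eval 0 / Q.eval 0 := div_nonneg (hN 0 le_rfl) (hpos 0 le_rfl).le
      rw [abs_le]
      constructor <;> linarith [h2.1, h2.2]
    obtain ⟨t, ht1, ht2⟩ := ((htend.eventually (eventually_gt_atTop
      (N.eval 0 / Q.eval 0 + ∑ x ∈ s, k x / (0 - x)))).and (eventually_ge_atTop 0)).exists
    exact absurd (hbd t ht2) (not_le.mpr ht1)
  obtain ⟨c, hc⟩ : ∃ c, S = C c := ⟨_, eq_C_of_natDegree_eq_zero hS⟩
  have hform' : ∀ t, 0 ≤ t → N.eval t / Q.eval t = c + ∑ x ∈ s, k x / (t - x) := by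
    intro t ht
    rw [hform t ht, hc, eval_C]
  -- the derivative
  have hd1 : HasDerivAt (fun t => N.eval t / Q.eval t)
      ((N.derivative.eval δ * Q.eval δ - N.eval δ * Q.derivative.eval δ) / (Q.eval δ) ^ 2) δ :=
    (N.hasDerivAt δ).div (Q.hasDerivAt δ) (hpos δ hδ.le).ne'
  have hd2 : HasDerivAt (fun t => c + ∑ x ∈ s, k x / (t - x))
      (∑ x ∈ s, - (k x / (δ - x) ^ 2)) δ := by
    apply HasDerivAt.const_add
    apply HasDerivAt.fun_sum
    intro x hx
    have h1 := hk x hx
    have hne : δ - x ≠ 0 := by linarith [h1.1]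
    have h2 : HasDerivAt (fun t : ℝ => t - x) 1 δ := (hasDerivAt_id δ).sub_const x
    have h3 := (hasDerivAt_const δ (k x)).div h2 hne
    refine h3.congr_deriv ?_
    field_simp
    ring
  have heq : (fun t => N.eval t / Q.eval t) =ᶠ[𝓝 δ] (fun t => c + ∑ x ∈ s, k x / (t - x)) := by
    filter_upwards [lt_mem_nhds hδ] with t ht
    exact hform' t ht.le
  have hder := hd1.unique (hd2.congr_of_eventuallyEq heq)
  rw [hder, hform' δ hδ.le, hform' 0 le_rfl, Finset.sum_neg_distrib, mul_neg, sub_neg_eq_add,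
    add_assoc, Finset.mul_sum, ← Finset.sum_add_distrib]
  gcongr with x hx
  have h1 := hk x hx
  have hx0 : 0 < -x := by linarith [h1.1]
  obtain ⟨a, ha⟩ : ∃ a, a = -x := ⟨_, rfl⟩
  have hxa : x = -a := by linarith
  rw [← ha] at hx0
  rw [hxa] at h1 ⊢
  have hk0 := h1.2
  generalize k (-a) = κ at *
  have hδa : δ + a ≠ 0 := by positivity
  have e : κ / (0 - -a) - (κ / (δ - -a) + δ * (κ / (δ - -a) ^ 2)) = κ * δ ^ 2 / (a * (δ + a) ^ 2) := by
    rw [sub_neg_eq_add, sub_neg_eq_add, zero_add]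
    field_simp
    ring
  have : 0 ≤ κ * δ ^ 2 / (a * (δ + a) ^ 2) := by positivity
  linarith

end Pool.Agent.Work.Shared.MSS
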