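import Mathlib
import Pool.Agent.Work.Shared.MSS.Pick

set_option autoImplicit false

/-!
Real stable polynomials and the barrier step.
-/

namespace Pool.Agent.Work.Shared.MSS

open Filter Topology

variable {σ : Type*}

/-- Real on real points. -/
def IsReal (P : MvPolynomial σ ℂ) : Prop :=
  ∀ x : σ → ℝ, (MvPolynomial.eval (fun i => (x i : ℂ)) P).im = 0

/-- Real stability. -/
structure Stab (P : MvPolynomial σ ℂ) : Prop where
  real : IsReal P
  ne_zero : ∀ z : σ → ℂ, (∀ i, 0 < (z i).im) → MvPolynomial.eval z P ≠ 0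

lemma pderiv_comm' (i k : σ) (P : MvPolynomial σ ℂ) :
    MvPolynomial.pderiv i (MvPolynomial.pderiv k P) =
      MvPolynomial.pderiv k (MvPolynomial.pderiv i P) := by
  classical
  rcases eq_or_ne i k with rfl | h
  · rfl
  · apply MvPolynomial.ext
    intro m
    rw [MvPolynomial.coeff_pderiv, MvPolynomial.coeff_pderiv, MvPolynomial.coeff_pderiv,
      MvPolynomial.coeff_pderiv, Finsupp.add_apply, Finsupp.add_apply,
      Finsupp.single_eq_of_ne h, Finsupp.single_eq_of_ne h.symm, add_right_comm, add_zero,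
      add_zero]
    ring

/-- Restriction to a line. -/
noncomputable def line (P : MvPolynomial σ ℂ) (z v : σ → ℂ) : Polynomial ℂ :=
  MvPolynomial.aeval (fun i => Polynomial.C (z i) + Polynomial.C (v i) * Polynomial.X) P

lemma eval_line (P : MvPolynomial σ ℂ) (z v : σ → ℂ) (t : ℂ) :
    (line P z v).eval t = MvPolynomial.eval (fun i => z i + t * v i) P := by
  unfold line
  induction P using MvPolynomial.induction_on with
  | C a =>
    rw [MvPolynomial.eval_C, MvPolynomial.aeval_C]
    simp only [Polynomial.algebraMap_eq, Polynomial.eval_C]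
  | add p q hp hq =>
    rw [map_add, map_add, Polynomial.eval_add, hp, hq]
  | mul_X p n hp =>
    rw [map_mul, map_mul, Polynomial.eval_mul, hp, MvPolynomial.aeval_X, MvPolynomial.eval_X]
    simp only [Polynomial.eval_add, Polynomial.eval_C, Polynomial.eval_mul, Polynomial.eval_X]
    rw [mul_comm (v n)]

lemma line_sub (P P' : MvPolynomial σ ℂ) (z v : σ → ℂ) :
    line (P - P') z v = line P z v - line P' z v := by
  simp [line]

lemma derivative_line [DecidableEq σ] (P : MvPolynomial σ ℂ) (z : σ → ℂ) (k : σ) :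
    Polynomial.derivative (line P z (Pi.single k 1)) =
      line (MvPolynomial.pderiv k P) z (Pi.single k 1) := by
  induction P using MvPolynomial.induction_on with
  | C a => simp [line]
  | add p q hp hq =>
    simp only [line, map_add] at *
    rw [hp, hq]
  | mul_X p n hp =>
    simp only [line, map_mul, MvPolynomial.pderiv_mul, MvPolynomial.aeval_X, map_add,
      Polynomial.derivative_mul] at *
    rw [hp]
    congr 1
    rw [MvPolynomial.pderiv_X]
    by_cases h : k = n
    · subst h; simp
    · simp [Pi.single_apply, Ne.symm h]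

lemma exists_real_poly (q : Polynomial ℂ) (h : ∀ t : ℝ, (q.eval (t : ℂ)).im = 0) :
    ∃ r : Polynomial ℝ, r.map (algebraMap ℝ ℂ) = q := by
  have h1 : q.map (starRingEnd ℂ) = q := by
    apply Polynomial.eq_of_infinite_eval_eq
    apply (Set.infinite_range_of_injective Complex.ofReal_injective).mono
    rintro _ ⟨t, rfl⟩
    show (q.map (starRingEnd ℂ)).eval (t : ℂ) = q.eval (t : ℂ)
    have h2 : (q.map (starRingEnd ℂ)).eval ((starRingEnd ℂ) (t : ℂ)) =
        (starRingEnd ℂ) (q.eval (t : ℂ)) := by
      rw [Polynomial.eval_map, Polynomial.eval₂_hom]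
    rw [Complex.conj_ofReal] at h2
    rw [h2]
    exact Complex.conj_eq_iff_im.mpr (h t)
  rw [← Polynomial.mem_lifts, Polynomial.lifts_iff_coeff_lifts]
  intro n
  have h2 : (starRingEnd ℂ) (q.coeff n) = q.coeff n := by
    conv_rhs => rw [← h1]
    rw [Polynomial.coeff_map]
  exact ⟨(q.coeff n).re, Complex.conj_eq_iff_re.mp h2⟩

/-- The restriction of a real polynomial to a real line, as a real polynomial. -/
lemma exists_rline {P : MvPolynomial σ ℂ} (hP : IsReal P) (z v : σ → ℝ) :
    ∃ r : Polynomial ℝ, r.map (algebraMap ℝ ℂ) =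
      line P (fun i => (z i : ℂ)) (fun i => (v i : ℂ)) := by
  apply exists_real_poly
  intro t
  rw [eval_line]
  have := hP (fun i => z i + t * v i)
  push_cast at this
  exact this

lemma isReal_sub {P P' : MvPolynomial σ ℂ} (hP : IsReal P) (hP' : IsReal P') :
    IsReal (P - P') := by
  intro x
  rw [map_sub, Complex.sub_im, hP x, hP' x, sub_zero]

lemma isReal_pderiv {P : MvPolynomial σ ℂ} (hP : IsReal P) (k : σ) :
    IsReal (MvPolynomial.pderiv k P) := by
  classical
  intro x
  obtain ⟨r, hr⟩ := exists_rline hP x (Pi.single k 1)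
  have h1 : (fun i => ((Pi.single k (1 : ℝ) : σ → ℝ) i : ℂ)) = Pi.single k 1 := by
    funext i
    by_cases h : i = k
    · subst h; simp
    · simp [h]
  rw [h1] at hr
  have h2 := derivative_line P (fun i => (x i : ℂ)) k
  rw [← hr, Polynomial.derivative_map] at h2
  have h3 := congrArg (Polynomial.eval (0 : ℂ)) h2
  rw [eval_line] at h3
  simp only [zero_mul, add_zero] at h3
  rw [← h3]
  have h4 : (Polynomial.map (algebraMap ℝ ℂ) (Polynomial.derivative r)).eval (0 : ℂ) =
      ((Polynomial.derivative r).eval 0 : ℝ) := by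
    have := aeval_ofReal (Polynomial.derivative r) 0
    rw [aeval_eq_eval_map, Complex.ofReal_zero] at this
    exact this
  rw [h4]
  simp

/-- Real value at a real point. -/
noncomputable def rev (P : MvPolynomial σ ℂ) (x : σ → ℝ) : ℝ :=
  (MvPolynomial.eval (fun i => (x i : ℂ)) P).re

lemma IsReal.eval_eq {P : MvPolynomial σ ℂ} (hP : IsReal P) (x : σ → ℝ) :
    MvPolynomial.eval (fun i => (x i : ℂ)) P = (rev P x : ℂ) := by
  apply Complex.ext
  · simp [rev]
  · simp [hP x]

lemma rev_sub (P P' : MvPolynomial σ ℂ) (x : σ → ℝ) : rev (P - P') x = rev P x - rev P' x := by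
  simp [rev]

lemma eval_rline {P : MvPolynomial σ ℂ} {z v : σ → ℝ} {r : Polynomial ℝ}
    (hr : r.map (algebraMap ℝ ℂ) = line P (fun i => (z i : ℂ)) (fun i => (v i : ℂ))) (t : ℝ) :
    r.eval t = rev P (fun i => z i + t * v i) := by
  have h1 := aeval_ofReal r t
  rw [aeval_eq_eval_map, hr, eval_line] at h1
  have h2 := congrArg Complex.re h1
  rw [Complex.ofReal_re] at h2
  rw [← h2, rev]
  push_cast
  rfl

/-- The fundamental inequality in the open upper half space. -/
lemma Stab.im_pderiv {P : MvPolynomial σ ℂ} (hP : Stab P) (k : σ) (z : σ → ℂ)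
    (hz : ∀ i, 0 < (z i).im) :
    (MvPolynomial.eval z (MvPolynomial.pderiv k P) * (starRingEnd ℂ) (MvPolynomial.eval z P)).im ≤ 0
      ∧ MvPolynomial.eval z (P - MvPolynomial.pderiv k P) ≠ 0 := by
  classical
  set q := line P (Function.update z k 0) (Pi.single k 1) with hq
  have hpt : ∀ t : ℂ, (fun i => (Function.update z k 0) i + t * (Pi.single k (1 : ℂ) : σ → ℂ) i) =
      Function.update z k t := by
    intro t
    funext i
    by_cases h : i = k
    · subst h; simp
    · simp [h]
  have hqne : ∀ t : ℂ, 0 < t.im → q.eval t ≠ 0 := by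
    intro t ht
    rw [hq, eval_line, hpt]
    apply hP.ne_zero
    intro i
    by_cases h : i = k
    · subst h; simpa using ht
    · simpa [h] using hz i
  have h1 : q.eval (z k) = MvPolynomial.eval z P := by
    rw [hq, eval_line, hpt, Function.update_eq_self]
  have h2 : q.derivative.eval (z k) = MvPolynomial.eval z (MvPolynomial.pderiv k P) := by
    rw [hq, derivative_line, eval_line, hpt, Function.update_eq_self]
  refine ⟨?_, ?_⟩
  · rw [← h1, ← h2]
    exact im_deriv_mul_conj q hqne (z k) (hz k)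
  · rw [map_sub, ← h1, ← h2]
    exact sub_deriv_ne_zero q hqne (z k) (hz k)

lemma Stab.sub_pderiv {P : MvPolynomial σ ℂ} (hP : Stab P) (k : σ) :
    Stab (P - MvPolynomial.pderiv k P) :=
  ⟨isReal_sub hP.real (isReal_pderiv hP.real k), fun z hz => (hP.im_pderiv k z hz).2⟩

/-- The fundamental inequality in the closed upper half space. -/
lemma Stab.im_pderiv_closed {P : MvPolynomial σ ℂ} (hP : Stab P) (k : σ) (z : σ → ℂ)
    (hz : ∀ i, 0 ≤ (z i).im) :
    (MvPolynomial.eval z (MvPolynomial.pderiv k P) *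
      (starRingEnd ℂ) (MvPolynomial.eval z P)).im ≤ 0 := by
  have hcont : ∀ R : MvPolynomial σ ℂ,
      Continuous (fun ε : ℝ => MvPolynomial.eval (fun i => z i + (ε : ℂ) * Complex.I) R) := by
    intro R
    exact (MvPolynomial.continuous_eval R).comp (by fun_prop)
  have hlim : Tendsto (fun ε : ℝ =>
      (MvPolynomial.eval (fun i => z i + (ε : ℂ) * Complex.I) (MvPolynomial.pderiv k P) *
      (starRingEnd ℂ) (MvPolynomial.eval (fun i => z i + (ε : ℂ) * Complex.I) P)).im) (𝓝[>] 0)
      (𝓝 (MvPolynomial.eval (fun i => z i + ((0 : ℝ) : ℂ) * Complex.I) (MvPolynomial.pderiv k P) *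
      (starRingEnd ℂ) (MvPolynomial.eval (fun i => z i + ((0 : ℝ) : ℂ) * Complex.I) P)).im) := by
    have : Continuous (fun ε : ℝ =>
      (MvPolynomial.eval (fun i => z i + (ε : ℂ) * Complex.I) (MvPolynomial.pderiv k P) *
      (starRingEnd ℂ) (MvPolynomial.eval (fun i => z i + (ε : ℂ) * Complex.I) P)).im) :=
      Complex.continuous_im.comp ((hcont _).mul (Complex.continuous_conj.comp (hcont _)))
    exact (this.tendsto 0).mono_left nhdsWithin_le_nhds
  simp only [Complex.ofReal_zero, zero_mul, add_zero] at hlim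
  refine le_of_tendsto hlim ?_
  filter_upwards [self_mem_nhdsWithin] with ε hε
  have hε' : (0 : ℝ) < ε := hε
  apply (hP.im_pderiv k _ _).1
  intro i
  simp
  linarith [hz i]

/-- `z` is above the roots of `P`. -/
def Above (P : MvPolynomial σ ℂ) (z : σ → ℝ) : Prop :=
  ∀ y : σ → ℝ, (∀ i, 0 ≤ y i) → 0 < rev P (fun i => z i + y i)

lemma Above.pos {P : MvPolynomial σ ℂ} {z : σ → ℝ} (h : Above P z) : 0 < rev P z := by
  have := h (fun _ => 0) (fun _ => le_rfl)
  simpa using this

lemma Above.add {P : MvPolynomial σ ℂ} {z : σ → ℝ} (h : Above P z) {y : σ → ℝ}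
    (hy : ∀ i, 0 ≤ y i) : Above P (fun i => z i + y i) := by
  intro y' hy'
  have := h (fun i => y i + y' i) (fun i => add_nonneg (hy i) (hy' i))
  simpa [add_assoc] using this

/-- The barrier function. -/
noncomputable def Phi (k : σ) (P : MvPolynomial σ ℂ) (z : σ → ℝ) : ℝ :=
  rev (MvPolynomial.pderiv k P) z / rev P z

lemma pickPair_line {P : MvPolynomial σ ℂ} (hP : Stab P) (k : σ) {z v : σ → ℝ}
    (hv : ∀ i, 0 ≤ v i) {N Q : Polynomial ℝ}
    (hN : N.map (algebraMap ℝ ℂ) = line (MvPolynomial.pderiv k P) (fun i => (z i : ℂ))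
      (fun i => (v i : ℂ)))
    (hQ : Q.map (algebraMap ℝ ℂ) = line P (fun i => (z i : ℂ)) (fun i => (v i : ℂ))) :
    PickPair N Q := by
  intro t ht
  rw [aeval_eq_eval_map, aeval_eq_eval_map, hN, hQ, eval_line, eval_line]
  apply hP.im_pderiv_closed
  intro i
  simp
  exact mul_nonneg ht.le (hv i)

/-- The barrier function is monotone. -/
lemma Phi_anti {P : MvPolynomial σ ℂ} (hP : Stab P) (k : σ) {z : σ → ℝ} (hz : Above P z)
    {y : σ → ℝ} (hy : ∀ i, 0 ≤ y i) : Phi k P (fun i => z i + y i) ≤ Phi k P z := by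
  obtain ⟨N, hN⟩ := exists_rline (isReal_pderiv hP.real k) z y
  obtain ⟨Q, hQ⟩ := exists_rline hP.real z y
  have hpick := pickPair_line hP k hy hN hQ
  have hpos : ∀ t, 0 ≤ t → 0 < Q.eval t := by
    intro t ht
    rw [eval_rline hQ]
    exact hz (fun i => t * y i) (fun i => mul_nonneg ht (hy i))
  have h1 := antitone_of_pick hpick 0 hpos (Set.mem_Ici.mpr le_rfl)
    (Set.mem_Ici.mpr (zero_le_one' ℝ)) (zero_le_one' ℝ)
  simp only [eval_rline hQ, eval_rline hN, zero_mul, add_zero, one_mul] at h1
  exact h1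

lemma coe_single [DecidableEq σ] (k : σ) :
    (fun i => ((Pi.single k (1 : ℝ) : σ → ℝ) i : ℂ)) = Pi.single k 1 := by
  funext i
  by_cases h : i = k
  · subst h; simp
  · simp [h]

/-- The barrier function is nonnegative. -/
lemma rev_pderiv_nonneg {P : MvPolynomial σ ℂ} (hP : Stab P) (k : σ) {z : σ → ℝ} (hz : Above P z) :
    0 ≤ rev (MvPolynomial.pderiv k P) z := by
  classical
  obtain ⟨Q, hQ⟩ := exists_rline hP.real z (Pi.single k 1)
  have hv : ∀ i, 0 ≤ (Pi.single k (1 : ℝ) : σ → ℝ) i := by
    intro i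
    by_cases h : i = k
    · subst h; simp
    · simp [h]
  have hN : (Polynomial.derivative Q).map (algebraMap ℝ ℂ) =
      line (MvPolynomial.pderiv k P) (fun i => (z i : ℂ))
        (fun i => ((Pi.single k (1 : ℝ) : σ → ℝ) i : ℂ)) := by
    rw [coe_single] at hQ ⊢
    rw [← Polynomial.derivative_map, hQ, derivative_line]
  have hpick := pickPair_line hP k hv hN hQ
  have hpos : ∀ t, 0 ≤ t → 0 < Q.eval t := by
    intro t ht
    rw [eval_rline hQ]
    exact hz (fun i => t * _) (fun i => mul_nonneg ht (hv i))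
  have hanti := antitone_of_pick hpick 0 hpos
  have hlim : Tendsto (fun x => (Polynomial.derivative Q).eval x / Q.eval x) atTop (𝓝 0) := by
    by_cases hdeg : Q.natDegree = 0
    · rw [Polynomial.eq_C_of_natDegree_eq_zero hdeg]
      simp
    · apply Polynomial.div_tendsto_atTop_zero_of_degree_lt
      apply Polynomial.degree_derivative_lt
      rintro rfl
      simp at hdeg
  have hge : 0 ≤ (Polynomial.derivative Q).eval 0 / Q.eval 0 := by
    refine le_of_tendsto hlim ?_
    filter_upwards [eventually_ge_atTop (0 : ℝ)] with x hx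
    exact hanti (Set.mem_Ici.mpr le_rfl) (Set.mem_Ici.mpr hx) hx
  have h0 := hpos 0 le_rfl
  have h1 : 0 ≤ (Polynomial.derivative Q).eval 0 := by
    by_contra hc
    push Not at hc
    have := div_neg_of_neg_of_pos hc h0
    linarith
  rw [eval_rline hN] at h1
  simpa using h1

/-- The convexity inequality for the barrier function. -/
lemma Phi_convex [DecidableEq σ] {P : MvPolynomial σ ℂ} (hP : Stab P) (i k : σ) {z : σ → ℝ}
    (hz : Above P z) (δ : ℝ) (hδ : 0 < δ) (z' : σ → ℝ)
    (hz' : z' = fun j => z j + δ * (Pi.single k (1 : ℝ) : σ → ℝ) j) :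
    Phi i P z' - δ * ((rev (MvPolynomial.pderiv k (MvPolynomial.pderiv i P)) z' * rev P z' -
      rev (MvPolynomial.pderiv i P) z' * rev (MvPolynomial.pderiv k P) z') / (rev P z') ^ 2) ≤
      Phi i P z := by
  obtain ⟨N, hN⟩ := exists_rline (isReal_pderiv hP.real i) z (Pi.single k 1)
  obtain ⟨Q, hQ⟩ := exists_rline hP.real z (Pi.single k 1)
  have hv : ∀ i, 0 ≤ (Pi.single k (1 : ℝ) : σ → ℝ) i := by
    intro i
    by_cases h : i = k
    · subst h; simp
    · simp [h]
  have hpick := pickPair_line hP i hv hN hQ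
  have hN' : (Polynomial.derivative N).map (algebraMap ℝ ℂ) =
      line (MvPolynomial.pderiv k (MvPolynomial.pderiv i P)) (fun i => (z i : ℂ))
        (fun i => ((Pi.single k (1 : ℝ) : σ → ℝ) i : ℂ)) := by
    rw [coe_single] at hN ⊢
    rw [← Polynomial.derivative_map, hN, derivative_line]
  have hQ' : (Polynomial.derivative Q).map (algebraMap ℝ ℂ) =
      line (MvPolynomial.pderiv k P) (fun i => (z i : ℂ))
        (fun i => ((Pi.single k (1 : ℝ) : σ → ℝ) i : ℂ)) := by
    rw [coe_single] at hQ ⊢
    rw [← Polynomial.derivative_map, hQ, derivative_line]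
  have hpos : ∀ t, 0 ≤ t → 0 < Q.eval t := by
    intro t ht
    rw [eval_rline hQ]
    exact hz (fun i => t * _) (fun i => mul_nonneg ht (hv i))
  have hNpos : ∀ t, 0 ≤ t → 0 ≤ N.eval t := by
    intro t ht
    rw [eval_rline hN]
    exact rev_pderiv_nonneg hP i (hz.add (y := fun j => t * (Pi.single k (1 : ℝ) : σ → ℝ) j)
      (fun i => mul_nonneg ht (hv i)))
  have h := pick_convex hpick hpos hNpos δ hδ
  rw [eval_rline hN', eval_rline hQ'] at h
  simp only [eval_rline hN, eval_rline hQ, zero_mul, add_zero] at h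
  rw [← hz'] at h
  exact h

lemma barrier_alg (a b d p : ℝ) (hp : p ≠ 0) (hpb : p - b ≠ 0) :
    (a - d) / (p - b) = a / p - ((d * p - a * b) / p ^ 2) * (p / (p - b)) := by
  field_simp
  ring

/-- The barrier step. -/
lemma barrier_step [DecidableEq σ] {P : MvPolynomial σ ℂ} (hP : Stab P) (k : σ) {z : σ → ℝ}
    (hz : Above P z) (δ : ℝ) (hδ : 1 < δ) (hk : Phi k P z ≤ 1 - 1 / δ) (z' : σ → ℝ)
    (hz' : z' = fun j => z j + δ * (Pi.single k (1 : ℝ) : σ → ℝ) j) :
    Above (P - MvPolynomial.pderiv k P) z' ∧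
      ∀ i, Phi i (P - MvPolynomial.pderiv k P) z' ≤ Phi i P z := by
  have hδ0 : 0 < δ := by linarith
  have hv : ∀ i, 0 ≤ δ * (Pi.single k (1 : ℝ) : σ → ℝ) i := by
    intro i
    by_cases h : i = k
    · subst h; simp; linarith
    · simp [h]
  have hz'above : Above P z' := by
    rw [hz']
    exact hz.add hv
  have hkz' : Phi k P z' ≤ 1 - 1 / δ := by
    refine le_trans ?_ hk
    rw [hz']
    exact Phi_anti hP k hz hv
  have h1δ : 0 < 1 / δ := by positivity
  constructor
  · intro y hy
    have h1 : Phi k P (fun i => z' i + y i) ≤ Phi k P z' := Phi_anti hP k hz'above hy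
    have h2 := hz'above y hy
    rw [rev_sub]
    unfold Phi at h1 hkz'
    have h3 : rev (MvPolynomial.pderiv k P) (fun i => z' i + y i) / rev P (fun i => z' i + y i) < 1 := by
      linarith
    rw [div_lt_one h2] at h3
    linarith
  · intro i
    have hconv := Phi_convex hP i k hz δ hδ0 z' hz'
    have hp := hz'above.pos
    set p := rev P z' with hpdef
    set a := rev (MvPolynomial.pderiv i P) z' with ha
    set b := rev (MvPolynomial.pderiv k P) z' with hb
    set d := rev (MvPolynomial.pderiv k (MvPolynomial.pderiv i P)) z' with hd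
    have hcomm : rev (MvPolynomial.pderiv i (MvPolynomial.pderiv k P)) z' = d := by
      rw [hd, pderiv_comm' i k P]
    refine le_trans ?_ hconv
    unfold Phi
    rw [map_sub, rev_sub, rev_sub, hcomm, ← ha, ← hb, ← hpdef]
    have hb' : b / p ≤ 1 - 1 / δ := hkz'
    have hpb : 0 < p - b := by
      have : b / p < 1 := by linarith
      rw [div_lt_one hp] at this
      linarith
    -- monotonicity: the Wronskian is nonpositive
    have hw : d * p - a * b ≤ 0 := by
      obtain ⟨N, hN⟩ := exists_rline (isReal_pderiv hP.real i) z' (Pi.single k 1)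
      obtain ⟨Q, hQ⟩ := exists_rline hP.real z' (Pi.single k 1)
      have hv1 : ∀ i, 0 ≤ (Pi.single k (1 : ℝ) : σ → ℝ) i := by
        intro i
        by_cases h : i = k
        · subst h; simp
        · simp [h]
      have hpick := pickPair_line hP i hv1 hN hQ
      have hN' : (Polynomial.derivative N).map (algebraMap ℝ ℂ) =
          line (MvPolynomial.pderiv k (MvPolynomial.pderiv i P)) (fun i => (z' i : ℂ))
            (fun i => ((Pi.single k (1 : ℝ) : σ → ℝ) i : ℂ)) := by
        rw [coe_single] at hN ⊢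
        rw [← Polynomial.derivative_map, hN, derivative_line]
      have hQ' : (Polynomial.derivative Q).map (algebraMap ℝ ℂ) =
          line (MvPolynomial.pderiv k P) (fun i => (z' i : ℂ))
            (fun i => ((Pi.single k (1 : ℝ) : σ → ℝ) i : ℂ)) := by
        rw [coe_single] at hQ ⊢
        rw [← Polynomial.derivative_map, hQ, derivative_line]
      have h := wronskian_nonpos hpick 0
      rw [eval_rline hN', eval_rline hQ'] at h
      simp only [eval_rline hN, eval_rline hQ, zero_mul, add_zero] at h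
      exact h
    have hle : p ≤ δ * (p - b) := by
      have h1 : 1 / δ ≤ 1 - b / p := by linarith
      have h2 : 1 - b / p = (p - b) / p := by field_simp
      rw [h2, div_le_div_iff₀ hδ0 hp] at h1
      linarith
    rw [barrier_alg a b d p hp.ne' hpb.ne']
    have h3 : p / (p - b) ≤ δ := by
      rw [div_le_iff₀ hpb]; exact hle
    have h4 : (d * p - a * b) / p ^ 2 ≤ 0 := div_nonpos_of_nonpos_of_nonneg hw (by positivity)
    have h5 : ((d * p - a * b) / p ^ 2) * δ ≤ ((d * p - a * b) / p ^ 2) * (p / (p - b)) :=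
      mul_le_mul_of_nonpos_left h3 h4
    linarith

end Pool.Agent.Work.Shared.MSS
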