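import Mathlib
import Pool.Agent.Work.Shared.MSS.Stable

set_option autoImplicit false
set_option linter.unusedSectionVars false

/-!
The mixed characteristic polynomials.
-/

namespace Pool.Agent.Work.Shared.MSS

open Filter Topology Matrix
open scoped ComplexOrder

variable {n ι J : Type*} [Fintype n] [DecidableEq n] [Fintype ι] [DecidableEq ι] [Fintype J]

/-- The rank one matrix `v v^*`. -/
def rk (v : n → ℂ) : Matrix n n ℂ := Matrix.vecMulVec v (star v)

/-- The matrix at a point. -/
def mat (A : ι → Matrix n n ℂ) (B : Matrix n n ℂ) (z : Option ι → ℂ) : Matrix n n ℂ :=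
  z none • (1 : Matrix n n ℂ) - B + ∑ k, z (some k) • A k

/-- The base polynomial. -/
noncomputable def base (A : ι → Matrix n n ℂ) (B : Matrix n n ℂ) : MvPolynomial (Option ι) ℂ :=
  Matrix.det ((MvPolynomial.X none : MvPolynomial (Option ι) ℂ) •
      (1 : Matrix n n (MvPolynomial (Option ι) ℂ)) - B.map MvPolynomial.C +
    ∑ k, (MvPolynomial.X (some k) : MvPolynomial (Option ι) ℂ) • (A k).map MvPolynomial.C)

lemma eval_base (A : ι → Matrix n n ℂ) (B : Matrix n n ℂ) (z : Option ι → ℂ) :
    MvPolynomial.eval z (base A B) = (mat A B z).det := by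
  unfold base
  rw [RingHom.map_det]
  congr 1
  ext i j
  simp [mat, Matrix.add_apply, Matrix.sub_apply, Matrix.sum_apply, Matrix.one_apply, apply_ite]

lemma mat_sub_rk (A : ι → Matrix n n ℂ) (B R : Matrix n n ℂ) (z : Option ι → ℂ) :
    mat A (B + R) z = mat A B z - R := by
  unfold mat
  abel

lemma mat_single (A : ι → Matrix n n ℂ) (B : Matrix n n ℂ) (z : Option ι → ℂ) (k : ι) (t : ℂ) :
    mat A B (fun i => z i + t * (Pi.single (some k) (1 : ℂ) : Option ι → ℂ) i) =
      mat A B z + t • A k := by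
  unfold mat
  have : ∑ x, (z (some x) + t * (Pi.single (some k) (1 : ℂ) : Option ι → ℂ) (some x)) • A x =
      ∑ x, z (some x) • A x + t • A k := by
    simp only [add_smul, Finset.sum_add_distrib]
    congr 1
    rw [Finset.sum_eq_single k]
    · simp
    · intro b _ hb
      rw [Pi.single_eq_of_ne (by simpa using hb)]
      simp
    · simp
  rw [this]
  simp
  abel

lemma det_sub_rk {Y : Matrix n n ℂ} (hY : IsUnit Y.det) (v : n → ℂ) :
    (Y - rk v).det = Y.det * (1 - (Y⁻¹ * rk v).trace) := by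
  have h1 := Matrix.det_add_mul (A := Y) (Matrix.replicateCol Unit (-v))
    (Matrix.replicateRow Unit (star v)) hY
  rw [← Matrix.vecMulVec_eq, Matrix.neg_vecMulVec, ← sub_eq_add_neg] at h1
  rw [rk, h1]
  congr 1
  rw [Matrix.det_unique, Matrix.add_apply, Matrix.one_apply_eq, sub_eq_add_neg]
  congr 1
  rw [Matrix.mul_vecMulVec, Matrix.trace_vecMulVec, Matrix.mul_assoc,
    ← Matrix.replicateCol_mulVec, Matrix.replicateRow_mul_replicateCol_apply,
    Matrix.mulVec_neg, dotProduct_neg, dotProduct_comm]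

/-- The derivative of the base polynomial. -/
lemma eval_pderiv_base (A : ι → Matrix n n ℂ) (B : Matrix n n ℂ) (z : Option ι → ℂ) (k : ι)
    (hY : IsUnit (mat A B z).det) :
    MvPolynomial.eval z (MvPolynomial.pderiv (some k) (base A B)) =
      (mat A B z).det * ((mat A B z)⁻¹ * A k).trace := by
  classical
  set Y := mat A B z with hYdef
  have h1 := derivative_line (base A B) z (some k)
  have h2 : line (base A B) z (Pi.single (some k) 1) =
      Polynomial.C Y.det * (det (1 + (Polynomial.X : Polynomial ℂ) • (Y⁻¹ * A k).map Polynomial.C)) := by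
    apply Polynomial.funext
    intro t
    rw [eval_line, eval_base, mat_single, ← hYdef, Polynomial.eval_mul, Polynomial.eval_C]
    have h4 : (det (1 + (Polynomial.X : Polynomial ℂ) • (Y⁻¹ * A k).map Polynomial.C)).eval t =
        det (1 + t • (Y⁻¹ * A k)) := by
      rw [← Polynomial.coe_evalRingHom, RingHom.map_det]
      congr 1
      ext i j
      simp only [RingHom.mapMatrix_apply, Matrix.map_apply, Matrix.add_apply, Matrix.smul_apply,
        smul_eq_mul, Polynomial.coe_evalRingHom, Polynomial.eval_add, Polynomial.eval_mul,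
        Polynomial.eval_X, Polynomial.eval_C, Matrix.one_apply]
      congr 1
      split_ifs <;> simp
    rw [h4, ← Matrix.det_mul, Matrix.mul_add, Matrix.mul_one, Matrix.mul_smul,
      Matrix.mul_nonsing_inv_cancel_left _ _ hY]
  have h3 := congrArg (Polynomial.eval (0 : ℂ)) h1
  rw [eval_line, h2, Polynomial.derivative_C_mul, Polynomial.eval_mul, Polynomial.eval_C,
    Matrix.derivative_det_one_add_X_smul] at h3
  simpa using h3.symm

/-- The quadratic form of a Hermitian matrix is real. -/
lemma im_quad {M : Matrix n n ℂ} (hM : M.IsHermitian) (v : n → ℂ) :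
    (star v ⬝ᵥ (M *ᵥ v)).im = 0 :=
  hM.im_star_dotProduct_mulVec_self v

lemma quad_nonneg {M : Matrix n n ℂ} (hM : M.PosSemidef) (v : n → ℂ) :
    0 ≤ (star v ⬝ᵥ (M *ᵥ v)).re := by
  have := hM.dotProduct_mulVec_nonneg v
  exact (Complex.le_def.mp this).1

lemma quad_mat (A : ι → Matrix n n ℂ) (B : Matrix n n ℂ) (z : Option ι → ℂ) (v : n → ℂ) :
    star v ⬝ᵥ (mat A B z *ᵥ v) = z none * (star v ⬝ᵥ v) - star v ⬝ᵥ (B *ᵥ v) +
      ∑ k, z (some k) * (star v ⬝ᵥ (A k *ᵥ v)) := by
  unfold mat
  rw [Matrix.add_mulVec, Matrix.sub_mulVec, Matrix.smul_mulVec, Matrix.one_mulVec,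
    Matrix.sum_mulVec, dotProduct_add, dotProduct_sub, dotProduct_smul, dotProduct_sum]
  simp only [Matrix.smul_mulVec, dotProduct_smul, smul_eq_mul]

lemma star_dot_self_pos {v : n → ℂ} (hv : v ≠ 0) : 0 < (star v ⬝ᵥ v).re ∧ (star v ⬝ᵥ v).im = 0 := by
  have := (dotProduct_star_self_pos_iff (v := v)).mpr hv
  have h := Complex.lt_def.mp this
  exact ⟨h.1, h.2.symm⟩

lemma isUnit_mat {A : ι → Matrix n n ℂ} (hA : ∀ k, (A k).PosSemidef) {B : Matrix n n ℂ}
    (hB : B.IsHermitian) {z : Option ι → ℂ} (hz : ∀ i, 0 < (z i).im) :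
    IsUnit (mat A B z).det := by
  rw [isUnit_iff_ne_zero]
  intro hdet
  obtain ⟨v, hv, hv0⟩ := Matrix.exists_mulVec_eq_zero_iff.mpr hdet
  have h1 := quad_mat A B z v
  rw [hv0, dotProduct_zero] at h1
  have h2 := congrArg Complex.im h1
  obtain ⟨h3, h4⟩ := star_dot_self_pos hv
  rw [Complex.add_im, Complex.sub_im, Complex.mul_im, im_quad hB, h4, Complex.im_sum] at h2
  have h5 : 0 ≤ ∑ k, (z (some k) * (star v ⬝ᵥ (A k *ᵥ v))).im := by
    apply Finset.sum_nonneg
    intro k _
    rw [Complex.mul_im, im_quad (hA k).1, mul_zero, zero_add]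
    exact mul_nonneg (hz _).le (quad_nonneg (hA k) v)
  have h6 := mul_pos (hz none) h3
  rw [Complex.zero_im] at h2
  linarith

lemma det_im_of_isHermitian {M : Matrix n n ℂ} (hM : M.IsHermitian) : M.det.im = 0 := by
  rw [← Complex.conj_eq_iff_im]
  show star M.det = _
  rw [← Matrix.det_conjTranspose, hM.eq]

lemma isHermitian_mat {A : ι → Matrix n n ℂ} (hA : ∀ k, (A k).IsHermitian) {B : Matrix n n ℂ}
    (hB : B.IsHermitian) (x : Option ι → ℝ) : (mat A B (fun i => (x i : ℂ))).IsHermitian := by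
  unfold mat
  rw [Matrix.IsHermitian, Matrix.conjTranspose_add, Matrix.conjTranspose_sub,
    Matrix.conjTranspose_smul, Matrix.conjTranspose_one, hB.eq, Matrix.conjTranspose_sum]
  simp only [Matrix.conjTranspose_smul, (hA _).eq]
  simp

lemma stab_base {A : ι → Matrix n n ℂ} (hA : ∀ k, (A k).PosSemidef) {B : Matrix n n ℂ}
    (hB : B.IsHermitian) : Stab (base A B) := by
  refine ⟨?_, ?_⟩
  · intro x
    rw [eval_base]
    exact det_im_of_isHermitian (isHermitian_mat (fun k => (hA k).1) hB x)
  · intro z hz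
    rw [eval_base]
    exact (isUnit_mat hA hB hz).ne_zero

/-- The mixed polynomials. -/
noncomputable def E (c : ι → J → ℝ) (w : ι → J → n → ℂ) (A : ι → Matrix n n ℂ) :
    List ι → Matrix n n ℂ → MvPolynomial (Option ι) ℂ
  | [], B => base A B
  | (i :: l), B => ∑ j, MvPolynomial.C ((c i j : ℝ) : ℂ) * E c w A l (B + rk (w i j))

lemma rk_isHermitian (v : n → ℂ) : (rk v).IsHermitian :=
  (Matrix.posSemidef_vecMulVec_self_star v).1

lemma trace_rk (Y : Matrix n n ℂ) (v : n → ℂ) : (Y * rk v).trace = star v ⬝ᵥ (Y *ᵥ v) := by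
  rw [rk, Matrix.mul_vecMulVec, Matrix.trace_vecMulVec, dotProduct_comm]

/-- The key identity. -/
lemma pderiv_E (c : ι → J → ℝ) (w : ι → J → n → ℂ) {A : ι → Matrix n n ℂ}
    (hA : ∀ k, (A k).PosSemidef) (k : ι) {J' : Type*} [Fintype J'] (a : J' → ℝ) (v : J' → n → ℂ)
    (hk : A k = ∑ j, (a j : ℂ) • rk (v j)) (l : List ι) {B : Matrix n n ℂ} (hB : B.IsHermitian) :
    MvPolynomial.pderiv (some k) (E c w A l B) =
      ∑ j, MvPolynomial.C ((a j : ℝ) : ℂ) * (E c w A l B - E c w A l (B + rk (v j))) := by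
  induction l generalizing B with
  | nil =>
    simp only [E]
    apply MvPolynomial.funext_set (fun _ => {z : ℂ | 0 < z.im})
    · intro _
      apply Set.Infinite.mono (s := Set.range (fun x : ℝ => (x : ℂ) + Complex.I))
      · rintro _ ⟨x, rfl⟩
        simp
      · apply Set.infinite_range_of_injective
        intro x y hxy
        simpa using hxy
    · intro z hz
      have hz' : ∀ i, 0 < (z i).im := fun i => hz i (Set.mem_univ i)
      have hY := isUnit_mat hA hB hz'
      rw [eval_pderiv_base A B z k hY, map_sum]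
      simp only [map_mul, MvPolynomial.eval_C, map_sub, eval_base, mat_sub_rk, det_sub_rk hY]
      rw [hk, Matrix.mul_sum, Matrix.trace_sum, Finset.mul_sum]
      apply Finset.sum_congr rfl
      intro j _
      rw [Matrix.mul_smul, Matrix.trace_smul, smul_eq_mul]
      ring
  | cons i l ih =>
    simp only [E, map_sum, MvPolynomial.pderiv_C_mul]
    have h1 : ∀ x, MvPolynomial.pderiv (some k) (E c w A l (B + rk (w i x))) =
        ∑ j, MvPolynomial.C ((a j : ℝ) : ℂ) * (E c w A l (B + rk (w i x)) -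
          E c w A l (B + rk (w i x) + rk (v j))) := fun x => ih (hB.add (rk_isHermitian _))
    simp only [h1, Finset.mul_sum, mul_sub, Finset.sum_sub_distrib]
    congr 1
    · rw [Finset.sum_comm]
      apply Finset.sum_congr rfl
      intro j _
      apply Finset.sum_congr rfl
      intro x _
      ring
    · rw [Finset.sum_comm]
      apply Finset.sum_congr rfl
      intro j _
      apply Finset.sum_congr rfl
      intro x _
      rw [add_right_comm]
      ring

/-- The recursion as a differential operator. -/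
lemma E_cons (c : ι → J → ℝ) (w : ι → J → n → ℂ) {A : ι → Matrix n n ℂ}
    (hA : ∀ k, (A k).PosSemidef) (k : ι) (hc : ∑ j, c k j = 1)
    (hk : A k = ∑ j, (c k j : ℂ) • rk (w k j)) (l : List ι) {B : Matrix n n ℂ}
    (hB : B.IsHermitian) :
    E c w A (k :: l) B = E c w A l B - MvPolynomial.pderiv (some k) (E c w A l B) := by
  rw [pderiv_E c w hA k (c k) (w k) hk l hB]
  simp only [E, mul_sub, Finset.sum_sub_distrib, ← Finset.sum_mul]
  have h1 : ∑ j, (MvPolynomial.C ((c k j : ℝ) : ℂ) : MvPolynomial (Option ι) ℂ) = 1 := by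
    rw [← map_sum, ← Complex.ofReal_sum, hc]
    simp
  rw [h1]
  ring

/-- All mixed polynomials are real stable. -/
lemma stab_E (c : ι → J → ℝ) (w : ι → J → n → ℂ) {A : ι → Matrix n n ℂ}
    (hA : ∀ k, (A k).PosSemidef) (hc : ∀ k, ∑ j, c k j = 1) (l : List ι)
    (hk : ∀ k ∈ l, A k = ∑ j, (c k j : ℂ) • rk (w k j)) {B : Matrix n n ℂ}
    (hB : B.IsHermitian) : Stab (E c w A l B) := by
  induction l with
  | nil => exact stab_base hA hB
  | cons k l ih =>
    rw [E_cons c w hA k (hc k) (hk k (by simp)) l hB]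
    exact (ih (fun k' hk' => hk k' (by simp [hk']))).sub_pderiv _

end Pool.Agent.Work.Shared.MSS
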