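import Mathlib
import Pool.Agent.Work.Shared.MSS.Det

set_option autoImplicit false
set_option linter.unusedSectionVars false

/-!
The barrier argument.
-/

namespace Pool.Agent.Work.Shared.MSS

open Filter Topology Matrix
open scoped ComplexOrder

variable {n ι J : Type*} [Fintype n] [DecidableEq n] [Fintype ι] [DecidableEq ι] [Fintype J]

/-- Squared norm. -/
def nsq (v : n → ℂ) : ℝ := (star v ⬝ᵥ v).re

lemma nsq_nonneg (v : n → ℂ) : 0 ≤ nsq v := by
  have := dotProduct_star_self_nonneg v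
  exact (Complex.le_def.mp this).1

/-- The real quadratic form. -/
def qf (M : Matrix n n ℂ) (v : n → ℂ) : ℝ := (star v ⬝ᵥ (M *ᵥ v)).re

lemma posDef_of_ge {Y : Matrix n n ℂ} (hY : Y.IsHermitian) {t : ℝ} (ht : 0 < t)
    (h : ∀ v, t * nsq v ≤ qf Y v) : Y.PosDef := by
  apply Matrix.PosDef.of_dotProduct_mulVec_pos hY
  intro v hv
  rw [Complex.lt_def]
  have h1 := star_dot_self_pos hv
  have h2 := h v
  have h3 : 0 < t * nsq v := mul_pos ht h1.1
  refine ⟨?_, ?_⟩
  · show (0 : ℝ) < qf Y v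
    linarith
  · rw [im_quad hY v]; rfl

lemma qf_inv_le {Y : Matrix n n ℂ} (hY : Y.IsHermitian) {t : ℝ} (ht : 0 < t)
    (h : ∀ v, t * nsq v ≤ qf Y v) (w : n → ℂ) : qf Y⁻¹ w ≤ nsq w / t := by
  have hpd := posDef_of_ge hY ht h
  have hu : IsUnit Y.det := (ne_of_gt hpd.det_pos).isUnit
  set u := Y⁻¹ *ᵥ w with hu'
  have hYu : Y *ᵥ u = w := by
    rw [hu', Matrix.mulVec_mulVec, Matrix.mul_nonsing_inv _ hu, Matrix.one_mulVec]
  have h1 : star u ⬝ᵥ w = star (star w ⬝ᵥ u) := by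
    rw [Matrix.star_dotProduct]
  have h2 : qf Y u = (star w ⬝ᵥ u).re := by
    rw [qf, hYu, h1]; simp
  have h3 : 0 ≤ nsq (w - (t : ℂ) • u) := nsq_nonneg _
  have h4 : nsq (w - (t : ℂ) • u) = nsq w - 2 * t * (star w ⬝ᵥ u).re + t ^ 2 * nsq u := by
    unfold nsq
    rw [star_sub, sub_dotProduct, dotProduct_sub, dotProduct_sub, star_smul, smul_dotProduct,
      dotProduct_smul, smul_dotProduct, dotProduct_smul, h1]
    simp
    ring
  have h5 := h u
  rw [h2] at h5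
  have h6 : t * (t * nsq u) ≤ t * (star w ⬝ᵥ u).re := mul_le_mul_of_nonneg_left h5 ht.le
  rw [le_div_iff₀ ht]
  show (star w ⬝ᵥ (Y⁻¹ *ᵥ w)).re * t ≤ _
  rw [← hu']
  nlinarith

lemma qf_mat (A : ι → Matrix n n ℂ) (B : Matrix n n ℂ) (z : Option ι → ℝ) (v : n → ℂ) :
    qf (mat A B (fun i => (z i : ℂ))) v = z none * nsq v - qf B v + ∑ k, z (some k) * qf (A k) v := by
  unfold qf nsq
  rw [quad_mat, Complex.add_re, Complex.sub_re, Complex.re_ofReal_mul, Complex.re_sum]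
  simp only [Complex.re_ofReal_mul]

lemma qf_sum (A : ι → Matrix n n ℂ) (v : n → ℂ) : qf (∑ k, A k) v = ∑ k, qf (A k) v := by
  unfold qf
  rw [Matrix.sum_mulVec, dotProduct_sum, Complex.re_sum]

lemma qf_one (v : n → ℂ) : qf (1 : Matrix n n ℂ) v = nsq v := by
  unfold qf nsq
  rw [Matrix.one_mulVec]

lemma qf_sub (A B : Matrix n n ℂ) (v : n → ℂ) : qf (A - B) v = qf A v - qf B v := by
  unfold qf
  rw [Matrix.sub_mulVec, dotProduct_sub, Complex.sub_re]

lemma qf_add (A B : Matrix n n ℂ) (v : n → ℂ) : qf (A + B) v = qf A v + qf B v := by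
  unfold qf
  rw [Matrix.add_mulVec, dotProduct_add, Complex.add_re]

lemma trace_mul_re_le {Y : Matrix n n ℂ} (hY : Y.IsHermitian) {t : ℝ} (ht : 0 < t)
    (h : ∀ v, t * nsq v ≤ qf Y v) (a : J → ℝ) (ha : ∀ j, 0 ≤ a j) (w : J → n → ℂ) {ε : ℝ}
    (hε : ∑ j, a j * nsq (w j) ≤ ε) :
    ((Y⁻¹ * ∑ j, (a j : ℂ) • rk (w j)).trace).re ≤ ε / t := by
  rw [Matrix.mul_sum, Matrix.trace_sum, Complex.re_sum]
  have h1 : ∀ j, (Y⁻¹ * ((a j : ℂ) • rk (w j))).trace.re = a j * qf Y⁻¹ (w j) := by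
    intro j
    rw [Matrix.mul_smul, Matrix.trace_smul, trace_rk, smul_eq_mul, Complex.re_ofReal_mul]
    rfl
  simp only [h1]
  calc ∑ j, a j * qf Y⁻¹ (w j) ≤ ∑ j, a j * (nsq (w j) / t) :=
        Finset.sum_le_sum fun j _ => mul_le_mul_of_nonneg_left (qf_inv_le hY ht h _) (ha j)
    _ = (∑ j, a j * nsq (w j)) / t := by
        rw [Finset.sum_div]
        exact Finset.sum_congr rfl fun j _ => by ring
    _ ≤ ε / t := by gcongr

lemma det_re_pos {Y : Matrix n n ℂ} (hY : Y.IsHermitian) {t : ℝ} (ht : 0 < t)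
    (h : ∀ v, t * nsq v ≤ qf Y v) : 0 < Y.det.re := by
  have := (posDef_of_ge hY ht h).det_pos
  exact (Complex.lt_def.mp this).1

lemma phi_base {A : ι → Matrix n n ℂ} (hA : ∀ k, (A k).PosSemidef) {B : Matrix n n ℂ}
    (hB : B.IsHermitian) (z : Option ι → ℝ) {t : ℝ} (ht : 0 < t)
    (h : ∀ v, t * nsq v ≤ qf (mat A B (fun i => (z i : ℂ))) v) (k : ι)
    (a : J → ℝ) (ha : ∀ j, 0 ≤ a j) (w : J → n → ℂ) {ε : ℝ}
    (hk : A k = ∑ j, (a j : ℂ) • rk (w j))
    (hε : ∑ j, a j * nsq (w j) ≤ ε) : Phi (some k) (base A B) z ≤ ε / t := by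
  have hY := isHermitian_mat (fun k => (hA k).1) hB z
  have hdet := det_re_pos hY ht h
  have him := det_im_of_isHermitian hY
  have hu : IsUnit (mat A B (fun i => (z i : ℂ))).det := by
    rw [isUnit_iff_ne_zero]
    intro h0
    rw [h0] at hdet
    simp at hdet
  unfold Phi rev
  rw [eval_pderiv_base A B _ k hu, eval_base, Complex.mul_re, him, zero_mul, sub_zero,
    mul_div_cancel_left₀ _ hdet.ne', hk]
  exact trace_mul_re_le hY ht h a ha w hε

/-- The point in the barrier argument. -/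
noncomputable def zpt (x δ : ℝ) (l : List ι) : Option ι → ℝ
  | none => x
  | some k => if k ∈ l then 0 else -δ

lemma zpt_cons (x δ : ℝ) (l : List ι) (k : ι) (hk : k ∉ l) :
    zpt x δ (k :: l) = fun j => zpt x δ l j + δ * (Pi.single (some k) (1 : ℝ) : Option ι → ℝ) j := by
  funext j
  cases j with
  | none => simp [zpt]
  | some i =>
    by_cases h : i = k
    · subst h
      simp [zpt, hk]
    · have h' : (some i : Option ι) ≠ some k := by simpa using h
      rw [Pi.single_eq_of_ne h']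
      simp [zpt, h]

lemma mixture_posSemidef (a : J → ℝ) (ha : ∀ j, 0 ≤ a j) (w : J → n → ℂ) :
    (∑ j, (a j : ℂ) • rk (w j)).PosSemidef := by
  apply Matrix.posSemidef_sum
  intro j _
  apply (Matrix.posSemidef_vecMulVec_self_star (w j)).smul
  exact_mod_cast ha j

theorem barrier_aux (c : ι → J → ℝ) (hc0 : ∀ k j, 0 ≤ c k j) (hc : ∀ k, ∑ j, c k j = 1)
    (w : ι → J → n → ℂ) {A : ι → Matrix n n ℂ} (hA : ∀ k, A k = ∑ j, (c k j : ℂ) • rk (w k j))
    {ε : ℝ} (hε : 0 < ε) (htr : ∀ k, ∑ j, c k j * nsq (w k j) ≤ ε)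
    (hM : ∀ v, qf (∑ k, A k) v ≤ nsq v) (x : ℝ) (hx : (1 + √ε) + (√ε + ε) ≤ x) (l : List ι)
    (hl : l.Nodup) :
    Above (E c w A l (1 - ∑ k, A k)) (zpt x (1 + √ε) l) ∧
      ∀ k, Phi (some k) (E c w A l (1 - ∑ k, A k)) (zpt x (1 + √ε) l) ≤ 1 - 1 / (1 + √ε) := by
  have hs : 0 < √ε := Real.sqrt_pos.mpr hε
  have hpsd : ∀ k, (A k).PosSemidef := fun k => by
    rw [hA k]; exact mixture_posSemidef _ (hc0 k) _
  have hB : (1 - ∑ k, A k : Matrix n n ℂ).IsHermitian := by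
    apply Matrix.isHermitian_one.sub
    exact (Matrix.posSemidef_sum _ fun k _ => hpsd k).1
  have ht : 0 < √ε + ε := by positivity
  have hge : ∀ y : Option ι → ℝ, (∀ i, 0 ≤ y i) → ∀ v, (√ε + ε) * nsq v ≤
      qf (mat A (1 - ∑ k, A k) (fun i => ((zpt x (1 + √ε) ([] : List ι) i + y i : ℝ) : ℂ))) v := by
    intro y hy v
    rw [qf_mat, qf_sub, qf_one, qf_sum]
    have h1 : ∑ k, (zpt x (1 + √ε) ([] : List ι) (some k) + y (some k)) * qf (A k) v =
        -(1 + √ε) * ∑ k, qf (A k) v + ∑ k, y (some k) * qf (A k) v := by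
      rw [Finset.mul_sum, ← Finset.sum_add_distrib]
      apply Finset.sum_congr rfl
      intro k _
      simp [zpt]
      ring
    have h2 : 0 ≤ ∑ k, y (some k) * qf (A k) v :=
      Finset.sum_nonneg fun k _ => mul_nonneg (hy _) (quad_nonneg (hpsd k) v)
    have h3 := hM v
    rw [qf_sum] at h3
    have h4 := nsq_nonneg v
    have h5 := mul_nonneg (hy none) h4
    rw [h1]
    have h6 : zpt x (1 + √ε) ([] : List ι) none = x := rfl
    rw [h6]
    nlinarith
  induction l with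
  | nil =>
    constructor
    · intro y hy
      simp only [E]
      unfold rev
      rw [eval_base]
      apply det_re_pos (isHermitian_mat (fun k => (hpsd k).1) hB _) ht
      exact hge y hy
    · intro k
      simp only [E]
      have h1 : (√ε + ε) = √ε * (1 + √ε) := by
        rw [mul_add, mul_one, Real.mul_self_sqrt hε.le]
      have h2 : 1 - 1 / (1 + √ε) = ε / (√ε + ε) := by
        rw [h1]
        have h3 : √ε * √ε = ε := Real.mul_self_sqrt hε.le
        field_simp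
        linear_combination h3
      rw [h2]
      apply phi_base hpsd hB _ ht _ k (c k) (hc0 k) (w k) (hA k) (htr k)
      intro v
      have := hge (fun _ => 0) (fun _ => le_rfl) v
      simpa using this
  | cons k l ih =>
    have hkl : k ∉ l := (List.nodup_cons.mp hl).1
    obtain ⟨ih1, ih2⟩ := ih (List.nodup_cons.mp hl).2
    have hst := stab_E c w hpsd hc l (fun k _ => hA k) hB
    rw [E_cons c w hpsd k (hc k) (hA k) l hB]
    obtain ⟨h1, h2⟩ := barrier_step hst (some k) ih1 (1 + √ε) (by linarith) (ih2 k) _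
      (zpt_cons x (1 + √ε) l k hkl)
    exact ⟨h1, fun i => (h2 (some i)).trans (ih2 i)⟩

/-- The point `(x, 0, ..., 0)`. -/
def pt (x : ℝ) : Option ι → ℝ
  | none => x
  | some _ => 0

theorem barrier (c : ι → J → ℝ) (hc0 : ∀ k j, 0 ≤ c k j) (hc : ∀ k, ∑ j, c k j = 1)
    (w : ι → J → n → ℂ) {A : ι → Matrix n n ℂ} (hA : ∀ k, A k = ∑ j, (c k j : ℂ) • rk (w k j))
    {ε : ℝ} (hε : 0 < ε) (htr : ∀ k, ∑ j, c k j * nsq (w k j) ≤ ε)
    (hM : ∀ v, qf (∑ k, A k) v ≤ nsq v) (l : List ι) (hl : l.Nodup) (hl' : ∀ k, k ∈ l)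
    (x : ℝ) (hx : (1 + √ε) + (√ε + ε) ≤ x) :
    0 < rev (E c w A l (1 - ∑ k, A k)) (pt x) := by
  have h := (barrier_aux c hc0 hc w hA hε htr hM x hx l hl).1.pos
  have h1 : zpt x (1 + √ε) l = pt x := by
    funext i
    cases i with
    | none => rfl
    | some k => simp [zpt, pt, hl' k]
  rwa [h1] at h

end Pool.Agent.Work.Shared.MSS
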