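import Mathlib
import Pool.Agent.Work.Shared.MSS.Barrier

set_option autoImplicit false
set_option linter.unusedSectionVars false

/-!
The selection argument.
-/

namespace Pool.Agent.Work.Shared.MSS

open Filter Topology Matrix
open scoped ComplexOrder

/-- The selection lemma for univariate polynomials. -/
lemma select_real {J : Type*} [Fintype J] (Q : Polynomial ℝ) (N : J → Polynomial ℝ)
    (hpick : ∀ j, PickPair (N j) Q) (c : J → ℝ) (hc0 : ∀ j, 0 ≤ c j) (hc : ∑ j, c j = 1)
    (hlim : ∀ j, Tendsto (fun x => (N j).eval x / Q.eval x) atTop (𝓝 0))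
    (hev : ∀ᶠ x in atTop, 0 < Q.eval x) (x0 : ℝ)
    (h : ∀ x, x0 ≤ x → 0 < ∑ j, c j * (Q.eval x - (N j).eval x)) :
    ∃ j, ∀ x, x0 ≤ x → 0 < Q.eval x - (N j).eval x := by
  have hsum : ∀ x, ∑ j, c j * (Q.eval x - (N j).eval x) = Q.eval x - ∑ j, c j * (N j).eval x := by
    intro x
    simp only [mul_sub, Finset.sum_sub_distrib, ← Finset.sum_mul, hc, one_mul]
  -- Step 1: Q is positive on [x0, ∞)
  have hQ : ∀ x, x0 ≤ x → 0 < Q.eval x := by
    by_contra hcon
    push Not at hcon
    obtain ⟨x1, hx1, hx1'⟩ := hcon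
    obtain ⟨R, hR⟩ := eventually_atTop.mp hev
    set S := {x : ℝ | x0 ≤ x ∧ Q.eval x ≤ 0} with hS
    have hSne : S.Nonempty := ⟨x1, hx1, hx1'⟩
    have hSbdd : BddAbove S := by
      refine ⟨R, ?_⟩
      rintro x ⟨_, hx2⟩
      by_contra hlt
      push Not at hlt
      linarith [hR x hlt.le]
    have hSclosed : IsClosed S := by
      apply IsClosed.and
      · exact isClosed_le continuous_const continuous_id
      · exact isClosed_le Q.continuous continuous_const
    set lam := sSup S with hlam
    have hlamS : lam ∈ S := hSclosed.csSup_mem hSne hSbdd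
    have hpos : ∀ x, lam < x → 0 < Q.eval x := by
      intro x hx
      by_contra hneg
      push Not at hneg
      have : x ∈ S := ⟨hlamS.1.trans hx.le, hneg⟩
      linarith [le_csSup hSbdd this]
    have hN : ∀ j x, lam < x → 0 ≤ (N j).eval x := by
      intro j x hx
      have hanti := antitone_of_pick (hpick j) x (fun y hy => hpos y (lt_of_lt_of_le hx hy))
      have hge : 0 ≤ (N j).eval x / Q.eval x := by
        refine le_of_tendsto (hlim j) ?_
        filter_upwards [eventually_ge_atTop x] with y hy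
        exact hanti (Set.mem_Ici.mpr le_rfl) (Set.mem_Ici.mpr hy) hy
      have h0 := hpos x hx
      by_contra hc
      push Not at hc
      have := div_neg_of_neg_of_pos hc h0
      linarith
    have hNlam : ∀ j, 0 ≤ (N j).eval lam := by
      intro j
      have : Tendsto (fun x => (N j).eval x) (𝓝[>] lam) (𝓝 ((N j).eval lam)) :=
        (N j).continuous.continuousAt.tendsto.mono_left nhdsWithin_le_nhds
      refine ge_of_tendsto this ?_
      filter_upwards [self_mem_nhdsWithin] with x hx
      exact hN j x hx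
    have h1 := h lam hlamS.1
    rw [hsum] at h1
    have h2 : 0 ≤ ∑ j, c j * (N j).eval lam :=
      Finset.sum_nonneg fun j _ => mul_nonneg (hc0 j) (hNlam j)
    linarith [hlamS.2]
  -- Step 2
  have hQ0 := hQ x0 le_rfl
  have h1 : ∃ j, (N j).eval x0 / Q.eval x0 < 1 := by
    by_contra hcon
    push Not at hcon
    have h2 := h x0 le_rfl
    rw [hsum] at h2
    have h3 : ∑ j, c j * Q.eval x0 ≤ ∑ j, c j * (N j).eval x0 := by
      apply Finset.sum_le_sum
      intro j _
      apply mul_le_mul_of_nonneg_left _ (hc0 j)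
      have := hcon j
      rwa [le_div_iff₀ hQ0, one_mul] at this
    rw [← Finset.sum_mul, hc, one_mul] at h3
    linarith
  obtain ⟨j, hj⟩ := h1
  refine ⟨j, fun x hx => ?_⟩
  have hanti := antitone_of_pick (hpick j) x0 hQ (Set.mem_Ici.mpr le_rfl) (Set.mem_Ici.mpr hx) hx
  have hQx := hQ x hx
  have h2 : (N j).eval x / Q.eval x < 1 := lt_of_le_of_lt hanti hj
  rw [div_lt_one hQx] at h2
  linarith

variable {n ι J : Type*} [Fintype n] [DecidableEq n] [Fintype ι] [DecidableEq ι] [Fintype J]

lemma mat_pt (A : ι → Matrix n n ℂ) (B : Matrix n n ℂ) (x : ℝ) :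
    mat A B (fun i => (pt x i : ℂ)) = (x : ℂ) • (1 : Matrix n n ℂ) - B := by
  unfold mat
  simp [pt]

lemma eval_E_indep (c : ι → J → ℝ) (w : ι → J → n → ℂ) (A A' : ι → Matrix n n ℂ) (l : List ι)
    (B : Matrix n n ℂ) (x : ℝ) :
    MvPolynomial.eval (fun i => (pt x i : ℂ)) (E c w A l B) =
      MvPolynomial.eval (fun i => (pt x i : ℂ)) (E c w A' l B) := by
  induction l generalizing B with
  | nil =>
    simp only [E]
    rw [eval_base, eval_base, mat_pt, mat_pt]
  | cons k l ih =>
    simp only [E, map_sum, map_mul, ih]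

lemma rev_E_indep (c : ι → J → ℝ) (w : ι → J → n → ℂ) (A A' : ι → Matrix n n ℂ) (l : List ι)
    (B : Matrix n n ℂ) (x : ℝ) : rev (E c w A l B) (pt x) = rev (E c w A' l B) (pt x) := by
  unfold rev
  rw [eval_E_indep c w A A' l B x]

lemma rev_E_cons (c : ι → J → ℝ) (w : ι → J → n → ℂ) (A : ι → Matrix n n ℂ) (k : ι) (l : List ι)
    (B : Matrix n n ℂ) (z : Option ι → ℝ) :
    rev (E c w A (k :: l) B) z = ∑ j, c k j * rev (E c w A l (B + rk (w k j))) z := by
  unfold rev
  simp only [E, map_sum, map_mul, MvPolynomial.eval_C, Complex.re_sum, Complex.re_ofReal_mul]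

lemma rev_E_lim (c : ι → J → ℝ) (w : ι → J → n → ℂ) (A : ι → Matrix n n ℂ)
    (hc : ∀ k, ∑ j, c k j = 1) (l : List ι) (B : Matrix n n ℂ) :
    Tendsto (fun x : ℝ => rev (E c w A l B) (pt x) / x ^ (Fintype.card n)) atTop (𝓝 1) := by
  induction l generalizing B with
  | nil =>
    have h1 : Tendsto (fun x : ℝ => (det (1 - ((x⁻¹ : ℝ) : ℂ) • B)).re) atTop (𝓝 1) := by
      have h2 : Continuous (fun y : ℝ => (det (1 - (y : ℂ) • B)).re) := by
        apply Complex.continuous_re.comp
        apply Continuous.matrix_det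
        fun_prop
      have h3 := (h2.tendsto 0).comp tendsto_inv_atTop_zero
      have h4 : (det (1 - ((0 : ℝ) : ℂ) • B)).re = 1 := by simp
      rw [h4] at h3
      exact h3
    apply h1.congr'
    filter_upwards [eventually_gt_atTop (0 : ℝ)] with x hx
    simp only [E]
    unfold rev
    rw [eval_base, mat_pt]
    have h2 : ((x : ℂ) • (1 : Matrix n n ℂ) - B) = (x : ℂ) • (1 - ((x⁻¹ : ℝ) : ℂ) • B) := by
      rw [smul_sub, smul_smul, ← Complex.ofReal_mul, mul_inv_cancel₀ hx.ne']
      simp
    rw [h2, Matrix.det_smul, ← Complex.ofReal_pow, Complex.re_ofReal_mul,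
      mul_div_cancel_left₀ _ (pow_pos hx _).ne']
  | cons k l ih =>
    have h1 : Tendsto (fun x : ℝ => ∑ j, c k j *
        (rev (E c w A l (B + rk (w k j))) (pt x) / x ^ (Fintype.card n))) atTop
        (𝓝 (∑ j, c k j * 1)) :=
      tendsto_finsetSum _ fun j _ => (ih (B + rk (w k j))).const_mul (c k j)
    simp only [mul_one, hc] at h1
    apply h1.congr
    intro x
    rw [rev_E_cons, Finset.sum_div]
    apply Finset.sum_congr rfl
    intro j _
    ring

lemma coe_pt (x : ℝ) :
    (fun i : Option ι => ((pt 0 i : ℝ) + x * (Pi.single none (1 : ℝ) : Option ι → ℝ) i)) = pt x := by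
  funext i
  cases i with
  | none => simp [pt]
  | some k => simp [pt]

lemma select_step (c : ι → J → ℝ) (w : ι → J → n → ℂ) (A : ι → Matrix n n ℂ)
    (hA : ∀ k, (A k).PosSemidef) (hc0 : ∀ k j, 0 ≤ c k j) (hc : ∀ k, ∑ j, c k j = 1)
    (hA' : ∀ k, A k = ∑ j, (c k j : ℂ) • rk (w k j)) (k : ι) (l : List ι) (hk : k ∉ l)
    (B : Matrix n n ℂ) (hB : B.IsHermitian) (x0 : ℝ)
    (h : ∀ x, x0 ≤ x → 0 < rev (E c w A (k :: l) B) (pt x)) :
    ∃ j, ∀ x, x0 ≤ x → 0 < rev (E c w A l (B + rk (w k j))) (pt x) := by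
  -- the modified families
  set A1 : J → ι → Matrix n n ℂ := fun j => Function.update A k (rk (w k j)) with hA1
  have hA1psd : ∀ j i, (A1 j i).PosSemidef := by
    intro j i
    by_cases hi : i = k
    · subst hi
      simp only [hA1, Function.update_self]
      exact Matrix.posSemidef_vecMulVec_self_star _
    · simp only [hA1, Function.update_of_ne hi]
      exact hA i
  have hst : ∀ j, Stab (E c w (A1 j) l B) := by
    intro j
    apply stab_E c w (hA1psd j) hc l _ hB
    intro i hi
    have hne : i ≠ k := fun h => hk (h ▸ hi)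
    simp only [hA1, Function.update_of_ne hne]
    exact hA' i
  have hstA : Stab (E c w A l B) := stab_E c w hA hc l (fun i _ => hA' i) hB
  have hpd : ∀ j, MvPolynomial.pderiv (some k) (E c w (A1 j) l B) =
      E c w (A1 j) l B - E c w (A1 j) l (B + rk (w k j)) := by
    intro j
    have := pderiv_E c w (hA1psd j) k (J' := Unit) (fun _ => 1) (fun _ => w k j)
      (by simp [hA1]) l hB
    simpa using this
  -- univariate polynomials
  obtain ⟨Q, hQ⟩ := exists_rline hstA.real (pt 0) (Pi.single none 1)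
  have hN : ∀ j, ∃ N : Polynomial ℝ, N.map (algebraMap ℝ ℂ) =
      line (MvPolynomial.pderiv (some k) (E c w (A1 j) l B)) (fun i => (pt 0 i : ℂ))
        (fun i => ((Pi.single none (1 : ℝ) : Option ι → ℝ) i : ℂ)) := fun j =>
    exists_rline (isReal_pderiv (hst j).real (some k)) (pt 0) (Pi.single none 1)
  choose N hN using hN
  have hQev : ∀ x, Q.eval x = rev (E c w A l B) (pt x) := by
    intro x
    rw [eval_rline hQ, coe_pt]
  have hNev : ∀ j x, (N j).eval x =
      rev (E c w A l B) (pt x) - rev (E c w A l (B + rk (w k j))) (pt x) := by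
    intro j x
    rw [eval_rline (hN j), coe_pt, hpd, rev_sub, rev_E_indep c w (A1 j) A, rev_E_indep c w (A1 j) A]
  have hQ' : ∀ j, Q.map (algebraMap ℝ ℂ) =
      line (E c w (A1 j) l B) (fun i => (pt 0 i : ℂ))
        (fun i => ((Pi.single none (1 : ℝ) : Option ι → ℝ) i : ℂ)) := by
    intro j
    obtain ⟨Q', hQ'⟩ := exists_rline (hst j).real (pt 0) (Pi.single none 1)
    have : Q = Q' := by
      apply Polynomial.funext
      intro x
      rw [hQev, eval_rline hQ', coe_pt]
      exact rev_E_indep c w A (A1 j) l B x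
    rw [this, hQ']
  have hv : ∀ i, 0 ≤ (Pi.single none (1 : ℝ) : Option ι → ℝ) i := by
    intro i
    cases i with
    | none => simp
    | some k => simp
  have hpick : ∀ j, PickPair (N j) Q := fun j =>
    pickPair_line (hst j) (some k) hv (hN j) (hQ' j)
  have hlimQ : Tendsto (fun x : ℝ => Q.eval x / x ^ (Fintype.card n)) atTop (𝓝 1) := by
    simp only [hQev]
    exact rev_E_lim c w A hc l B
  have hlimN : ∀ j, Tendsto (fun x : ℝ => (N j).eval x / x ^ (Fintype.card n)) atTop (𝓝 0) := by
    intro j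
    have h1 := (rev_E_lim c w A hc l B).sub (rev_E_lim c w A hc l (B + rk (w k j)))
    rw [sub_self] at h1
    apply h1.congr
    intro x
    rw [hNev, sub_div]
  have hev : ∀ᶠ x in atTop, 0 < Q.eval x := by
    filter_upwards [hlimQ.eventually (lt_mem_nhds one_pos), eventually_gt_atTop (0 : ℝ)] with x h1 h2
    have h3 := pow_pos h2 (Fintype.card n)
    exact (div_pos_iff_of_pos_right h3).mp h1
  have hlim : ∀ j, Tendsto (fun x => (N j).eval x / Q.eval x) atTop (𝓝 0) := by
    intro j
    have h1 := (hlimN j).div hlimQ one_ne_zero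
    rw [zero_div] at h1
    apply h1.congr'
    filter_upwards [eventually_gt_atTop (0 : ℝ)] with x hx
    have h3 := (pow_pos hx (Fintype.card n)).ne'
    simp only [Pi.div_apply]
    field_simp
  obtain ⟨j, hj⟩ := select_real Q N hpick (c k) (hc0 k) (hc k) hlim hev x0 (by
    intro x hx
    have h1 := h x hx
    rw [rev_E_cons] at h1
    convert h1 using 1
    apply Finset.sum_congr rfl
    intro j _
    rw [hQev, hNev]
    ring)
  refine ⟨j, fun x hx => ?_⟩
  have := hj x hx
  rw [hQev, hNev] at this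
  linarith

lemma select (c : ι → J → ℝ) (w : ι → J → n → ℂ) (A : ι → Matrix n n ℂ)
    (hA : ∀ k, (A k).PosSemidef) (hc0 : ∀ k j, 0 ≤ c k j) (hc : ∀ k, ∑ j, c k j = 1)
    (hA' : ∀ k, A k = ∑ j, (c k j : ℂ) • rk (w k j)) (l : List ι) (hl : l.Nodup)
    (B : Matrix n n ℂ) (hB : B.IsHermitian) (x0 : ℝ)
    (h : ∀ x, x0 ≤ x → 0 < rev (E c w A l B) (pt x)) :
    ∃ s : ι → J, ∀ x, x0 ≤ x → 0 < (det ((x : ℂ) • (1 : Matrix n n ℂ) -
      (B + (l.map (fun k => rk (w k (s k)))).sum))).re := by
  induction l generalizing B with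
  | nil =>
    have hne : Nonempty (ι → J) := by
      by_contra hcon
      rw [not_nonempty_iff, isEmpty_pi] at hcon
      obtain ⟨k, hk⟩ := hcon
      have := hc k
      simp at this
    obtain ⟨s⟩ := hne
    refine ⟨s, fun x hx => ?_⟩
    have h1 := h x hx
    simp only [E] at h1
    unfold rev at h1
    rw [eval_base, mat_pt] at h1
    simpa using h1
  | cons k l ih =>
    have hkl : k ∉ l := (List.nodup_cons.mp hl).1
    obtain ⟨j, hj⟩ := select_step c w A hA hc0 hc hA' k l hkl B hB x0 h
    obtain ⟨s, hs⟩ := ih (List.nodup_cons.mp hl).2 (B + rk (w k j))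
      (hB.add (rk_isHermitian _)) hj
    refine ⟨Function.update s k j, fun x hx => ?_⟩
    have h1 := hs x hx
    have h2 : (l.map (fun i => rk (w i (Function.update s k j i)))) =
        l.map (fun i => rk (w i (s i))) := by
      apply List.map_congr_left
      intro i hi
      have hne : i ≠ k := fun h => hkl (h ▸ hi)
      rw [Function.update_of_ne hne]
    rw [List.map_cons, List.sum_cons, h2, Function.update_self, ← add_assoc]
    exact h1

end Pool.Agent.Work.Shared.MSS
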