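import Mathlib
import Pool.Agent.Work.Shared.MSS.Select

set_option autoImplicit false
set_option linter.unusedSectionVars false

/-!
The Marcus–Spielman–Srivastava theorem in the form `Σ w w^* ≤ E Σ w w^* + 2 √ε + ε`.
-/

namespace Pool.Agent.Work.Shared.MSS

open Filter Topology Matrix
open scoped ComplexOrder

variable {n ι J : Type*} [Fintype n] [DecidableEq n] [Fintype ι] [DecidableEq ι] [Fintype J]

lemma qf_smul_one (x : ℝ) (v : n → ℂ) : qf ((x : ℂ) • (1 : Matrix n n ℂ)) v = x * nsq v := by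
  unfold qf nsq
  rw [Matrix.smul_mulVec, Matrix.one_mulVec, dotProduct_smul, smul_eq_mul, Complex.re_ofReal_mul]

lemma isHermitian_smul_one (x : ℝ) : ((x : ℂ) • (1 : Matrix n n ℂ)).IsHermitian := by
  rw [Matrix.IsHermitian, Matrix.conjTranspose_smul, Matrix.conjTranspose_one]
  simp

lemma qf_le_of_det_pos {B : Matrix n n ℂ} (hB : B.IsHermitian) (x0 : ℝ)
    (h : ∀ x, x0 ≤ x → 0 < (det ((x : ℂ) • (1 : Matrix n n ℂ) - B)).re) (v : n → ℂ) :
    qf B v ≤ x0 * nsq v := by
  have hY : ((x0 : ℂ) • (1 : Matrix n n ℂ) - B).IsHermitian := (isHermitian_smul_one x0).sub hB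
  have hpsd : ((x0 : ℂ) • (1 : Matrix n n ℂ) - B).PosSemidef := by
    rw [hY.posSemidef_iff_eigenvalues_nonneg]
    intro i
    by_contra hneg
    simp only [Pi.zero_apply, not_le] at hneg
    have h1 := hY.mulVec_eigenvectorBasis i
    have h2 := h (x0 - hY.eigenvalues i) (by linarith)
    have h3 : det ((((x0 - hY.eigenvalues i : ℝ)) : ℂ) • (1 : Matrix n n ℂ) - B) = 0 := by
      rw [← Matrix.exists_mulVec_eq_zero_iff]
      refine ⟨⇑(hY.eigenvectorBasis i), ?_, ?_⟩
      · intro h0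
        have h4 := hY.eigenvectorBasis.orthonormal.ne_zero i
        apply h4
        ext j
        exact congrFun h0 j
      · rw [Complex.ofReal_sub, sub_smul, sub_right_comm, Matrix.sub_mulVec, h1,
          Matrix.smul_mulVec, Matrix.one_mulVec]
        ext j
        simp
    rw [h3] at h2
    simp at h2
  have h1 := quad_nonneg hpsd v
  have h2 : qf ((x0 : ℂ) • (1 : Matrix n n ℂ) - B) v = x0 * nsq v - qf B v := by
    rw [qf_sub, qf_smul_one]
  have h3 : 0 ≤ qf ((x0 : ℂ) • (1 : Matrix n n ℂ) - B) v := h1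
  rw [h2] at h3
  linarith

/-- **Marcus–Spielman–Srivastava**, with a bound on the expectation. -/
theorem mss (c : ι → J → ℝ) (hc0 : ∀ k j, 0 ≤ c k j) (hc : ∀ k, ∑ j, c k j = 1)
    (w : ι → J → n → ℂ) {ε : ℝ} (hε : 0 < ε) (htr : ∀ k, ∑ j, c k j * nsq (w k j) ≤ ε)
    (hM : ∀ v, ∑ k, ∑ j, c k j * qf (rk (w k j)) v ≤ nsq v) :
    ∃ s : ι → J, ∀ v, ∑ k, qf (rk (w k (s k))) v ≤
      ∑ k, ∑ j, c k j * qf (rk (w k j)) v + (2 * √ε + ε) * nsq v := by
  set A : ι → Matrix n n ℂ := fun k => ∑ j, (c k j : ℂ) • rk (w k j) with hAdef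
  have hA' : ∀ k, A k = ∑ j, (c k j : ℂ) • rk (w k j) := fun k => rfl
  have hA : ∀ k, (A k).PosSemidef := fun k => mixture_posSemidef _ (hc0 k) _
  have hqA : ∀ v, qf (∑ k, A k) v = ∑ k, ∑ j, c k j * qf (rk (w k j)) v := by
    intro v
    classical
    rw [qf_sum]
    apply Finset.sum_congr rfl
    intro k _
    rw [hA', qf_sum]
    apply Finset.sum_congr rfl
    intro j _
    unfold qf
    rw [Matrix.smul_mulVec, dotProduct_smul, smul_eq_mul, Complex.re_ofReal_mul]
  have hB : (1 - ∑ k, A k : Matrix n n ℂ).IsHermitian := by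
    apply Matrix.isHermitian_one.sub
    exact (Matrix.posSemidef_sum _ fun k _ => hA k).1
  have hbar := barrier c hc0 hc w hA' hε htr (by intro v; rw [hqA]; exact hM v)
    (Finset.univ : Finset ι).toList (Finset.nodup_toList _) (by simp)
  obtain ⟨s, hs⟩ := select c w A hA hc0 hc hA' (Finset.univ : Finset ι).toList
    (Finset.nodup_toList _) _ hB _ hbar
  refine ⟨s, fun v => ?_⟩
  have hsum : ((Finset.univ : Finset ι).toList.map (fun k => rk (w k (s k)))).sum =
      ∑ k, rk (w k (s k)) := Finset.sum_map_toList _ _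
  rw [hsum] at hs
  have hH : ((1 - ∑ k, A k) + ∑ k, rk (w k (s k)) : Matrix n n ℂ).IsHermitian := by
    apply hB.add
    exact (Matrix.posSemidef_sum _ fun k _ => Matrix.posSemidef_vecMulVec_self_star _).1
  have h1 := qf_le_of_det_pos hH _ hs v
  rw [qf_add, qf_sub, qf_one, qf_sum (fun k => rk (w k (s k))), hqA] at h1
  linarith

end Pool.Agent.Work.Shared.MSS
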