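import Mathlib
import Pool.Agent.Work.Shared.MSS.MSS

set_option autoImplicit false
set_option linter.unusedSectionVars false

/-!
The halving theorem.
-/

namespace Pool.Agent.Work.Shared.MSS

open Filter Topology Matrix
open scoped ComplexOrder

/-- Sign. -/
def sg (b : Bool) : ℂ := if b then -1 else 1

lemma normSq_sg (b : Bool) : sg b * (starRingEnd ℂ) (sg b) = 1 := by
  cases b <;> simp [sg]

/-- The outcomes. -/
noncomputable def wv {d : ℕ} (u v : EuclideanSpace ℂ (Fin d)) (j : Bool × Bool) :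
    Fin d ⊕ Fin d → ℂ :=
  fun i => ((√2 : ℝ) : ℂ) * Sum.elim (fun i => (if j.1 then u else v) i)
    (fun i => sg j.2 * (if j.1 then v else u) i) i

lemma inner_eq {d : ℕ} (u x : EuclideanSpace ℂ (Fin d)) :
    inner ℂ u x = ∑ i, (starRingEnd ℂ) (u i) * x i := by
  rw [PiLp.inner_apply]
  apply Finset.sum_congr rfl
  intro i _
  rw [RCLike.inner_apply, mul_comm]

lemma star_dot_wv {d : ℕ} (u v : EuclideanSpace ℂ (Fin d)) (j : Bool × Bool)
    (a b : EuclideanSpace ℂ (Fin d)) :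
    star (wv u v j) ⬝ᵥ (Sum.elim (fun i => a i) (fun i => b i) : Fin d ⊕ Fin d → ℂ) =
      ((√2 : ℝ) : ℂ) * (inner ℂ (if j.1 then u else v) a +
        sg j.2 * inner ℂ (if j.1 then v else u) b) := by
  rw [inner_eq, inner_eq, dotProduct, Fintype.sum_sum_type, mul_add, Finset.mul_sum,
    Finset.mul_sum, Finset.mul_sum]
  congr 1
  · apply Finset.sum_congr rfl
    intro i _
    simp [wv]
    ring
  · apply Finset.sum_congr rfl
    intro i _
    have : (starRingEnd ℂ) (sg j.2) = sg j.2 := by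
      cases j.2 <;> simp [sg]
    simp [wv, this]
    ring

lemma qf_rk {n : Type*} [Fintype n] [DecidableEq n] (w x : n → ℂ) :
    qf (rk w) x = ‖star w ⬝ᵥ x‖ ^ 2 := by
  unfold qf rk
  rw [Matrix.vecMulVec_mulVec, dotProduct_smul, Matrix.star_dotProduct x w,
    MulOpposite.smul_eq_mul_unop, MulOpposite.unop_op, Complex.sq_norm, Complex.normSq_apply]
  simp

lemma nsq_elim {d : ℕ} (a b : EuclideanSpace ℂ (Fin d)) :
    nsq (Sum.elim (fun i => a i) (fun i => b i) : Fin d ⊕ Fin d → ℂ) = ‖a‖ ^ 2 + ‖b‖ ^ 2 := by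
  unfold nsq
  rw [EuclideanSpace.norm_sq_eq, EuclideanSpace.norm_sq_eq, dotProduct, Fintype.sum_sum_type,
    Complex.add_re, Complex.re_sum, Complex.re_sum]
  congr 1
  · apply Finset.sum_congr rfl
    intro i _
    simp [Complex.sq_norm, Complex.normSq_apply]
  · apply Finset.sum_congr rfl
    intro i _
    simp [Complex.sq_norm, Complex.normSq_apply]

lemma normsq_pm (p q : ℂ) : ‖p + sg false * q‖ ^ 2 + ‖p + sg true * q‖ ^ 2 =
    2 * (‖p‖ ^ 2 + ‖q‖ ^ 2) := by
  simp only [sg, Complex.sq_norm, Complex.normSq_apply]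
  simp
  ring

lemma nsq_eq {n : Type*} [Fintype n] [DecidableEq n] (w : n → ℂ) :
    nsq w = ∑ i, ‖w i‖ ^ 2 := by
  unfold nsq
  rw [dotProduct, Complex.re_sum]
  apply Finset.sum_congr rfl
  intro i _
  simp [Complex.sq_norm, Complex.normSq_apply]

lemma norm_sg (b : Bool) : ‖sg b‖ = 1 := by cases b <;> simp [sg]

lemma nsq_wv {d : ℕ} (u v : EuclideanSpace ℂ (Fin d)) (j : Bool × Bool) :
    nsq (wv u v j) = 2 * (‖u‖ ^ 2 + ‖v‖ ^ 2) := by
  have h2 : (√2 : ℝ) ^ 2 = 2 := Real.sq_sqrt (by norm_num)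
  rw [nsq_eq, Fintype.sum_sum_type]
  simp only [wv, Sum.elim_inl, Sum.elim_inr, norm_mul, norm_sg, one_mul, mul_pow,
    Complex.norm_real, Real.norm_eq_abs, sq_abs, h2, ← Finset.mul_sum,
    ← EuclideanSpace.norm_sq_eq]
  cases j.1
  · simp
    ring
  · simp
    ring

/-- The quadratic form of an outcome. -/
lemma qf_wv {d : ℕ} (u v : EuclideanSpace ℂ (Fin d)) (j : Bool × Bool)
    (a b : EuclideanSpace ℂ (Fin d)) :
    qf (rk (wv u v j)) (Sum.elim (fun i => a i) (fun i => b i)) =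
      2 * ‖inner ℂ (if j.1 then u else v) a + sg j.2 * inner ℂ (if j.1 then v else u) b‖ ^ 2 := by
  rw [qf_rk, star_dot_wv, norm_mul, mul_pow, Complex.norm_real, Real.norm_eq_abs, sq_abs,
    Real.sq_sqrt (by norm_num)]

lemma sum_qf_wv {d : ℕ} (u v : EuclideanSpace ℂ (Fin d)) (a b : EuclideanSpace ℂ (Fin d)) :
    ∑ j : Bool × Bool, (1 / 4 : ℝ) * qf (rk (wv u v j)) (Sum.elim (fun i => a i) (fun i => b i)) =
      (‖inner ℂ u a‖ ^ 2 + ‖inner ℂ v a‖ ^ 2) + (‖inner ℂ u b‖ ^ 2 + ‖inner ℂ v b‖ ^ 2) := by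
  simp only [qf_wv]
  rw [Fintype.sum_prod_type]
  simp only [Fintype.sum_bool, if_true, Bool.false_eq_true, if_false]
  have h1 := normsq_pm (inner ℂ u a) (inner ℂ v b)
  have h2 := normsq_pm (inner ℂ v a) (inner ℂ u b)
  linarith

lemma exists_elim {d : ℕ} (x : Fin d ⊕ Fin d → ℂ) : ∃ a b : EuclideanSpace ℂ (Fin d),
    x = Sum.elim (fun i => a i) (fun i => b i) := by
  refine ⟨WithLp.toLp 2 (fun i => x (Sum.inl i)), WithLp.toLp 2 (fun i => x (Sum.inr i)), ?_⟩
  funext i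
  cases i <;> rfl

/-- The **halving theorem** (a two-sided form of Weaver's `KS₂`). -/
theorem halving {d n : ℕ} (u v : Fin n → EuclideanSpace ℂ (Fin d)) (δ : ℝ) (hδ : 0 ≤ δ)
    (hu : ∀ k, ‖u k‖ ^ 2 ≤ δ) (hv : ∀ k, ‖v k‖ ^ 2 ≤ δ)
    (hM : ∀ x, ∑ k, (‖inner ℂ (u k) x‖ ^ 2 + ‖inner ℂ (v k) x‖ ^ 2) ≤ ‖x‖ ^ 2) :
    ∃ s : Fin n → ℝ, (∀ k, s k = 1 ∨ s k = -1) ∧
      ∀ x, |∑ k, s k * (‖inner ℂ (u k) x‖ ^ 2 - ‖inner ℂ (v k) x‖ ^ 2)| ≤
        (4 * √δ + 4 * δ) * ‖x‖ ^ 2 := by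
  rcases hδ.eq_or_lt with h0 | hpos
  · refine ⟨fun _ => 1, fun _ => Or.inl rfl, fun x => ?_⟩
    have hu0 : ∀ k, u k = 0 := fun k => by
      have := hu k
      rw [← h0] at this
      have h1 : ‖u k‖ ^ 2 = 0 := le_antisymm this (by positivity)
      simpa using h1
    have hv0 : ∀ k, v k = 0 := fun k => by
      have := hv k
      rw [← h0] at this
      have h1 : ‖v k‖ ^ 2 = 0 := le_antisymm this (by positivity)
      simpa using h1
    simp [hu0, hv0, ← h0]
  · obtain ⟨s, hs⟩ := mss (n := Fin d ⊕ Fin d) (ι := Fin n) (J := Bool × Bool)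
      (fun _ _ => 1 / 4) (fun _ _ => by norm_num)
      (fun _ => by simp) (fun k => wv (u k) (v k)) (ε := 4 * δ) (by linarith)
      (fun k => by
        simp only [nsq_wv]
        simp
        linarith [hu k, hv k])
      (fun x => by
        obtain ⟨a, b, rfl⟩ := exists_elim x
        simp only [sum_qf_wv]
        rw [Finset.sum_add_distrib, nsq_elim]
        exact add_le_add (hM a) (hM b))
    have hsq : √(4 * δ) = 2 * √δ := by
      rw [Real.sqrt_mul (by norm_num), show (4 : ℝ) = 2 ^ 2 by norm_num,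
        Real.sqrt_sq (by norm_num)]
    refine ⟨fun k => if (s k).1 then 1 else -1, fun k => by by_cases h : (s k).1 <;> simp [h],
      fun x => ?_⟩
    have h1 := hs (Sum.elim (fun i => x i) (fun i => (0 : EuclideanSpace ℂ (Fin d)) i))
    have h2 := hs (Sum.elim (fun i => (0 : EuclideanSpace ℂ (Fin d)) i) (fun i => x i))
    simp only [sum_qf_wv] at h1 h2
    simp only [qf_wv, nsq_elim, hsq] at h1 h2
    simp only [inner_zero_right, norm_zero, mul_zero, add_zero, zero_add, norm_mul, norm_sg,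
      one_mul, ne_eq, OfNat.ofNat_ne_zero, not_false_eq_true, zero_pow] at h1 h2
    have h3 : ∀ k, (if (s k).1 = true then (1 : ℝ) else -1) *
        (‖inner ℂ (u k) x‖ ^ 2 - ‖inner ℂ (v k) x‖ ^ 2) =
        2 * ‖inner ℂ (if (s k).1 = true then u k else v k) x‖ ^ 2 -
          (‖inner ℂ (u k) x‖ ^ 2 + ‖inner ℂ (v k) x‖ ^ 2) := by
      intro k
      by_cases h : (s k).1 = true <;> simp [h] <;> ring
    have h4 : ∀ k, (if (s k).1 = true then (1 : ℝ) else -1) *
        (‖inner ℂ (u k) x‖ ^ 2 - ‖inner ℂ (v k) x‖ ^ 2) =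
        -(2 * ‖inner ℂ (if (s k).1 = true then v k else u k) x‖ ^ 2 -
          (‖inner ℂ (u k) x‖ ^ 2 + ‖inner ℂ (v k) x‖ ^ 2)) := by
      intro k
      by_cases h : (s k).1 = true <;> simp [h] <;> ring
    rw [abs_le]
    constructor
    · rw [Finset.sum_congr rfl fun k _ => h4 k, Finset.sum_neg_distrib, Finset.sum_sub_distrib]
      linarith
    · rw [Finset.sum_congr rfl fun k _ => h3 k, Finset.sum_sub_distrib]
      linarith

end Pool.Agent.Work.Shared.MSS
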